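import Pool.Agent.Lib.MP_6bd702_pr_h23.Rsw

/-!
Closed dual crossings of strips, and: with positive probability all the clusters are small.
-/

set_option autoImplicit false

namespace Pool.Agent.MP_6bd702.H23

open Finset

theorem trL_trL (e : Ed) : trL.e (trL.e e) = e := by
  obtain ⟨x, y, t⟩ := e
  simp [trL]

theorem cr_trL (e : Ed) : cr (trL.e e) = trL.e (cr e) := by
  obtain ⟨x, y, t⟩ := e
  cases t <;> simp [trL]

theorem vc_of_hc_tr {a b c d : ℤ} {ω : Set Ed} (h : HC a b c d ω) :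
    VC c d a b (trL.e ⁻¹' ω) := by
  obtain ⟨y, y', h1, h2, h3, h4, h5⟩ := h
  refine ⟨y, y', h1, h2, h3, h4, ?_⟩
  refine LMap.conn trL (R := Rect a b c d) (u := (a, y)) (w := (b, y')) ?_ ?_
  · intro w hw
    simp only [mem_Rect, trL] at hw ⊢
    omega
  · refine h5.mono ?_ le_rfl
    intro e he
    change trL.e (trL.e e) ∈ ω
    rw [trL_trL]; exact he

theorem hc_of_vc_tr {a b c d : ℤ} {ω : Set Ed} (h : VC a b c d ω) :
    HC c d a b (trL.e ⁻¹' ω) := by
  obtain ⟨y, y', h1, h2, h3, h4, h5⟩ := h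
  refine ⟨y, y', h1, h2, h3, h4, ?_⟩
  refine LMap.conn trL (R := Rect a b c d) (u := (y, c)) (w := (y', d)) ?_ ?_
  · intro w hw
    simp only [mem_Rect, trL] at hw ⊢
    omega
  · refine h5.mono ?_ le_rfl
    intro e he
    change trL.e (trL.e e) ∈ ω
    rw [trL_trL]; exact he

theorem du_tr (ω : Set Ed) : du (trL.e ⁻¹' ω) = trL.e ⁻¹' (du ω) := by
  ext e
  simp only [mem_du, Set.mem_preimage, cr_trL]

/-- A left-right crossing excludes a bottom-top dual crossing. -/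
theorem block' {a b c d : ℤ} (hab : a < b) (hcd : c ≤ d) {ω : Set Ed} (h : HC a b c d ω) :
    ¬ VC a (b - 1) (c - 1) d (du ω) := by
  intro h1
  have h2 := hc_of_vc_tr h1
  rw [← du_tr] at h2
  exact block hab hcd (vc_of_hc_tr h) h2

/-- A crossing of a rectangle crosses every horizontal strip. -/
theorem vc_strip {ω : Set Ed} {a b c d c' d' : ℤ} (h1 : c ≤ c') (h2 : c' < d') (h3 : d' ≤ d)
    {u v : ℤ × ℤ} (hu : u.2 ≤ c') (huR : u ∈ Rect a b c d) (hv : d' ≤ v.2)
    (h : Conn ω (Rect a b c d) u v) : VC a b c' d' ω := by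
  have h4 : Conn (trL.e ⁻¹' ω) (Rect c d a b) (trL.v u) (trL.v v) := by
    refine LMap.conn trL (R := Rect a b c d) ?_ ?_
    · intro w hw
      simp only [mem_Rect, trL] at hw ⊢
      omega
    · refine h.mono ?_ le_rfl
      intro e he
      change trL.e (trL.e e) ∈ ω
      rw [trL_trL]; exact he
  have h5 : HC c' d' a b (trL.e ⁻¹' ω) := by
    refine hc_strip h1 h2 h3 (u := trL.v u) (v := trL.v v) hu ?_ hv h4
    simp only [mem_Rect, trL] at huR ⊢
    omega
  have h6 := vc_of_hc_tr h5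
  have h7 : trL.e ⁻¹' (trL.e ⁻¹' ω) = ω := by
    ext e
    simp only [Set.mem_preimage, trL_trL]
  rwa [h7] at h6

/-- All the clusters in the square have width and height at most `n / K`. -/
def Sm (K : ℕ) (n : ℤ) : Set (Set Ed) :=
  {ω | ∀ u ∈ Rect 0 n 0 n, ∀ v ∈ Rect 0 n 0 n, Conn ω (Rect 0 n 0 n) u v →
    K * |u.1 - v.1| ≤ n ∧ K * |u.2 - v.2| ≤ n}

theorem Sm_lower (K : ℕ) (n : ℤ) : IsLowerSet (Sm K n) :=
  fun _ _ h h1 u hu v hv h2 => h1 u hu v hv (h2.mono h le_rfl)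

theorem Sm_anti {K K' : ℕ} (h : K ≤ K') (n : ℤ) : Sm K' n ⊆ Sm K n := by
  intro ω h1 u hu v hv h2
  obtain ⟨h3, h4⟩ := h1 u hu v hv h2
  have h5 : (K : ℤ) ≤ K' := by exact_mod_cast h
  exact ⟨(mul_le_mul_of_nonneg_right h5 (abs_nonneg _)).trans h3,
    (mul_le_mul_of_nonneg_right h5 (abs_nonneg _)).trans h4⟩

theorem Conn_empty {R : Set (ℤ × ℤ)} {u v : ℤ × ℤ} (h : Conn ∅ R u v) : u = v := by
  unfold Conn at h
  induction h with
  | refl => rfl
  | tail _ h2 _ =>
    obtain ⟨_, _, e, he, _⟩ := h2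
    exact absurd he (Set.notMem_empty e)

theorem empty_mem_Sm (K : ℕ) {n : ℤ} (hn : 0 ≤ n) : ∅ ∈ Sm K n := by
  intro u _ v _ h
  have h1 := Conn_empty h
  subst h1
  simp [hn]

/-- Strips: a connection which is wide crosses some strip. -/
theorem strip_index {K : ℕ} {n k p q : ℤ} (hk : 0 < k) (h2k : K * (2 * k) ≤ n)
    (hn4 : n < 4 * K * k) (hp : 0 ≤ p) (hq : q ≤ n) (h : n < K * (q - p)) :
    ∃ i ∈ range (4 * K), p ≤ (i : ℤ) * k ∧ ((i : ℤ) + 1) * k ≤ q := by
  have h1 : 2 * k < q - p := by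
    by_contra hcon
    push Not at hcon
    have := mul_le_mul_of_nonneg_left hcon (Int.natCast_nonneg K)
    omega
  have h3 := Int.emod_add_mul_ediv (p + k - 1) k
  have h4 := Int.emod_nonneg (p + k - 1) hk.ne'
  have h5 := Int.emod_lt_of_pos (p + k - 1) hk
  set j := (p + k - 1) / k with hj
  have h6 : 0 ≤ j := Int.ediv_nonneg (by omega) hk.le
  have h7 : p ≤ j * k := by
    have : k * j = j * k := mul_comm _ _
    omega
  have h8 : (j + 1) * k ≤ q := by
    have : (j + 1) * k = k * j + k := by ring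
    omega
  refine ⟨j.toNat, ?_, ?_, ?_⟩
  · rw [mem_range]
    have h9 : j < 4 * K := by
      by_contra hcon
      push Not at hcon
      have h10 := mul_le_mul_of_nonneg_right hcon hk.le
      have h11 : (j + 1) * k = j * k + k := by ring
      omega
    have : (j.toNat : ℤ) < (4 * K : ℕ) := by
      rw [Int.toNat_of_nonneg h6]; push_cast; exact h9
    exact_mod_cast this
  · rwa [Int.toNat_of_nonneg h6]
  · rwa [Int.toNat_of_nonneg h6]

theorem strips_sub {K : ℕ} {n k : ℤ} (hk : 0 < k) (hn0 : 0 ≤ n) (h2k : K * (2 * k) ≤ n)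
    (hn4 : n < 4 * K * k) :
    (⋂ i ∈ range (4 * K), {ω | du ω ∈ {ω | VC ((i : ℤ) * k) (((i : ℤ) + 1) * k - 1) (0 - 1) n ω}}) ∩
      (⋂ i ∈ range (4 * K), {ω | du ω ∈ {ω | HC (0 - 1) n ((i : ℤ) * k) (((i : ℤ) + 1) * k - 1) ω}})
      ⊆ Sm K n := by
  rintro ω ⟨h1, h2⟩
  simp only [Set.mem_iInter] at h1 h2
  have hx : ∀ u ∈ Rect 0 n 0 n, ∀ v ∈ Rect 0 n 0 n, Conn ω (Rect 0 n 0 n) u v →
      K * (v.1 - u.1) ≤ n := by
    intro u hu v hv hc
    by_contra hcon
    push Not at hcon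
    have hu' := hu
    have hv' := hv
    rw [mem_Rect] at hu' hv'
    obtain ⟨i, hi, h3, h4⟩ := strip_index hk h2k hn4 hu'.1 hv'.2.1 hcon
    have h5 : (i : ℤ) * k < ((i : ℤ) + 1) * k := by nlinarith
    have h6 := hc_strip (by omega) h5 (by omega) h3 hu h4 hc
    exact block' h5 hn0 h6 (h1 i hi)
  have hy : ∀ u ∈ Rect 0 n 0 n, ∀ v ∈ Rect 0 n 0 n, Conn ω (Rect 0 n 0 n) u v →
      K * (v.2 - u.2) ≤ n := by
    intro u hu v hv hc
    by_contra hcon
    push Not at hcon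
    have hu' := hu
    have hv' := hv
    rw [mem_Rect] at hu' hv'
    obtain ⟨i, hi, h3, h4⟩ := strip_index hk h2k hn4 hu'.2.2.1 hv'.2.2.2 hcon
    have h5 : (i : ℤ) * k < ((i : ℤ) + 1) * k := by nlinarith
    have h6 := vc_strip (by omega) h5 (by omega) h3 hu h4 hc
    exact block h5 hn0 h6 (h2 i hi)
  intro u hu v hv hc
  refine ⟨?_, ?_⟩
  · rcases abs_cases (u.1 - v.1) with ⟨h3, _⟩ | ⟨h3, _⟩
    · rw [h3]; exact hx v hv u hu hc.symm
    · rw [h3, neg_sub]; exact hx u hu v hv hc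
  · rcases abs_cases (u.2 - v.2) with ⟨h3, _⟩ | ⟨h3, _⟩
    · rw [h3]; exact hy v hv u hu hc.symm
    · rw [h3, neg_sub]; exact hy u hu v hv hc

theorem pr_empty_pos (W : Finset Ed) : 0 < pr W {∅} := by
  classical
  unfold pr
  rw [Pr_eq_card]
  refine div_pos ?_ (by positivity)
  rw [Nat.cast_pos, card_pos]
  refine ⟨∅, ?_⟩
  rw [mem_filter]
  refine ⟨mem_univ _, ?_⟩
  change cfg W ∅ ∈ ({∅} : Set (Set Ed))
  rw [Set.mem_singleton_iff, Set.eq_empty_iff_forall_notMem]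
  rintro e ⟨_, h⟩
  exact notMem_empty _ h

/-- With probability bounded below all the clusters of the square are small. -/
theorem small_clusters (K : ℕ) : ∃ c > 0, ∀ n : ℤ, 0 ≤ n → c ≤ pr (EW 0 n 0 n) (Sm K n) := by
  obtain ⟨c, hc, h⟩ := rsw (4 * (K + 1))
  set N : ℤ := 6 * (K + 1) with hN
  set c' : ℝ := pr (EW 0 N 0 N) {∅} with hc'
  have hc'0 : 0 < c' := pr_empty_pos _
  refine ⟨min c' (c ^ (range (4 * (K + 1))).card * c ^ (range (4 * (K + 1))).card),
    lt_min hc'0 (by positivity), fun n hn0 => ?_⟩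
  refine le_trans ?_ (pr_mono (Sm_anti (Nat.le_succ K) n))
  by_cases hn : n ≤ N
  · refine (min_le_left _ _).trans ?_
    refine le_trans (pr_mono (B := Sm (K + 1) n) ?_) (pr_anti (EW_sub le_rfl hn le_rfl hn)
      (Sm_lower _ _))
    rintro ω hω
    rw [Set.mem_singleton_iff] at hω
    subst hω
    exact empty_mem_Sm _ hn0
  · refine (min_le_right _ _).trans ?_
    push Not at hn
    have hK : (0 : ℤ) < 2 * (K + 1) := by positivity
    set k : ℤ := n / (2 * (K + 1)) with hk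
    have h1 := Int.emod_add_mul_ediv n (2 * (K + 1))
    have h2 := Int.emod_nonneg n hK.ne'
    have h3 := Int.emod_lt_of_pos n hK
    rw [← hk] at h1
    have hk3 : 3 ≤ k := by
      rw [hk, Int.le_ediv_iff_mul_le hK]
      omega
    have h2k : ((K + 1 : ℕ) : ℤ) * (2 * k) ≤ n := by
      push_cast
      nlinarith
    have h4 : n + 1 ≤ ((4 * (K + 1) : ℕ) : ℤ) * (k - 1) := by
      push_cast
      nlinarith
    have h4' : n < 4 * ((K + 1 : ℕ) : ℤ) * k := by
      push_cast at h4 ⊢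
      nlinarith
    have hp0 : c ≤ hp (n + 1) (k - 1) := h (n + 1) (k - 1) (by omega) (by omega) h4
    set W := EW 0 n 0 n with hW
    have hA := harris_lo_list (W := W) (range (4 * (K + 1)))
      (fun i => {ω | du ω ∈ {ω | VC ((i : ℤ) * k) (((i : ℤ) + 1) * k - 1) (0 - 1) n ω}}) hc.le
      (fun i _ => du_lower (VC_mono _ _ _ _)) (fun i _ => by
        refine le_trans ?_ (pr_dual_ge W (VC_loc _ _ _ _) (VC_mono _ _ _ _))
        rw [pr_vc]
        rw [show n - (0 - 1) = n + 1 by ring,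
          show ((i : ℤ) + 1) * k - 1 - (i : ℤ) * k = k - 1 by ring]
        exact hp0)
    have hB := harris_lo_list (W := W) (range (4 * (K + 1)))
      (fun i => {ω | du ω ∈ {ω | HC (0 - 1) n ((i : ℤ) * k) (((i : ℤ) + 1) * k - 1) ω}}) hc.le
      (fun i _ => du_lower (HC_mono _ _ _ _)) (fun i _ => by
        refine le_trans ?_ (pr_dual_ge W (HC_loc _ _ _ _) (HC_mono _ _ _ _))
        rw [pr_hc]
        rw [show n - (0 - 1) = n + 1 by ring,
          show ((i : ℤ) + 1) * k - 1 - (i : ℤ) * k = k - 1 by ring]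
        exact hp0)
    refine le_trans ?_ (pr_mono (strips_sub (K := K + 1) (by omega) hn0 h2k h4'))
    refine le_trans ?_ (harris_lo hA.2 hB.2)
    exact mul_le_mul hA.1 hB.1 (by positivity) (pr_nonneg _ _)

end Pool.Agent.MP_6bd702.H23
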