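import Pool.Agent.Lib.MP_6bd702_pr_h23.Prob

/-!
Crossing probabilities: the box crossing property of Russo, Seymour and Welsh, following
Bollobas and Riordan.
-/

set_option autoImplicit false

namespace Pool.Agent.MP_6bd702.H23

open Finset

/-- The probability of the left-right crossing of the rectangle of width `w` and height `t`. -/
noncomputable def hp (w t : ℤ) : ℝ := pr (EW 0 w 0 t) {ω | HC 0 w 0 t ω}

theorem hp_nonneg (w t : ℤ) : 0 ≤ hp w t := pr_nonneg _ _

/-- Removing closed edges. -/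
theorem pr_anti {W W' : Finset Ed} (h : W ⊆ W') {A : Set (Set Ed)} (hA : IsLowerSet A) :
    pr W' A ≤ pr W A := by
  rw [← pr_pull (W := W) (W' := W') id Function.injective_id (fun e he => h he) A]
  refine pr_mono' fun ω _ h1 => ?_
  exact hA Set.inter_subset_left h1

theorem pr_up {W W' : Finset Ed} (h : W ⊆ W') {A : Set (Set Ed)} (hA : IsUpperSet A) :
    pr W A ≤ pr W' A := by
  rw [← pr_pull (W := W) (W' := W') id Function.injective_id (fun e he => h he) A]
  refine pr_mono' fun ω _ h1 => ?_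
  exact hA Set.inter_subset_left h1

theorem EW_sub {a b c d a' b' c' d' : ℤ} (h1 : a' ≤ a) (h2 : b ≤ b') (h3 : c' ≤ c) (h4 : d ≤ d') :
    EW a b c d ⊆ EW a' b' c' d' := by
  intro e he
  rw [mem_EW] at he ⊢
  simp only [mem_Rect] at he ⊢
  omega

/-- Translation invariance. -/
theorem pr_hc (a b c d : ℤ) : pr (EW a b c d) {ω | HC a b c d ω} = hp (b - a) (d - c) := by
  unfold hp
  apply le_antisymm
  · refine pr_le_map (shiftL (-a) (-c)) ?_ ?_
    · intro e he
      rw [mem_EW] at he ⊢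
      obtain ⟨x, y, t⟩ := e
      cases t <;> simp only [mem_Rect, shiftL, ea_mk, eb_true, eb_false] at he ⊢ <;> omega
    · rintro ω ⟨y, y', h1, h2, h3, h4, h5⟩
      have h6 := LMap.conn (shiftL (-a) (-c)) (R' := Rect 0 (b - a) 0 (d - c)) (ω := ω) ?_
        (h5.mono Set.inter_subset_left le_rfl)
      · refine ⟨y - c, y' - c, by omega, by omega, by omega, by omega, ?_⟩
        simpa [shiftL, sub_eq_add_neg] using h6
      · intro w hw
        simp only [mem_Rect, shiftL] at hw ⊢
        omega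
  · refine pr_le_map (shiftL a c) ?_ ?_
    · intro e he
      rw [mem_EW] at he ⊢
      obtain ⟨x, y, t⟩ := e
      cases t <;> simp only [mem_Rect, shiftL, ea_mk, eb_true, eb_false] at he ⊢ <;> omega
    · rintro ω ⟨y, y', h1, h2, h3, h4, h5⟩
      have h6 := LMap.conn (shiftL a c) (R' := Rect a b c d) (ω := ω) ?_
        (h5.mono Set.inter_subset_left le_rfl)
      · refine ⟨y + c, y' + c, by omega, by omega, by omega, by omega, ?_⟩
        simpa [shiftL] using h6
      · intro w hw
        simp only [mem_Rect, shiftL] at hw ⊢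
        omega

/-- Transposition. -/
theorem pr_vc (a b c d : ℤ) : pr (EW a b c d) {ω | VC a b c d ω} = hp (d - c) (b - a) := by
  rw [← pr_hc c d a b]
  apply le_antisymm
  · refine pr_le_map trL ?_ ?_
    · intro e he
      rw [mem_EW] at he ⊢
      obtain ⟨x, y, t⟩ := e
      cases t <;> simp [mem_Rect, trL] at he ⊢ <;> omega
    · rintro ω ⟨y, y', h1, h2, h3, h4, h5⟩
      have h6 := LMap.conn trL (R' := Rect c d a b) (ω := ω) ?_
        (h5.mono Set.inter_subset_left le_rfl)
      · exact ⟨y, y', by omega, by omega, by omega, by omega, h6⟩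
      · intro w hw
        simp only [mem_Rect, trL] at hw ⊢
        omega
  · refine pr_le_map trL ?_ ?_
    · intro e he
      rw [mem_EW] at he ⊢
      obtain ⟨x, y, t⟩ := e
      cases t <;> simp [mem_Rect, trL] at he ⊢ <;> omega
    · rintro ω ⟨y, y', h1, h2, h3, h4, h5⟩
      have h6 := LMap.conn trL (R' := Rect a b c d) (ω := ω) ?_
        (h5.mono Set.inter_subset_left le_rfl)
      · exact ⟨y, y', by omega, by omega, by omega, by omega, h6⟩
      · intro w hw
        simp only [mem_Rect, trL] at hw ⊢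
        omega

/-- The crossing in a larger window. -/
theorem pr_hc_window {W : Finset Ed} {a b c d : ℤ} (h : EW a b c d ⊆ W) :
    pr W {ω | HC a b c d ω} = hp (b - a) (d - c) := by
  rw [pr_window h (HC_loc a b c d), pr_hc]

theorem pr_vc_window {W : Finset Ed} {a b c d : ℤ} (h : EW a b c d ⊆ W) :
    pr W {ω | VC a b c d ω} = hp (d - c) (b - a) := by
  rw [pr_window h (VC_loc a b c d), pr_vc]

/-- A crossing of a rectangle crosses every vertical strip. -/
theorem hc_strip {ω : Set Ed} {a b c d a' b' : ℤ} (h1 : a ≤ a') (h2 : a' < b') (h3 : b' ≤ b)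
    {u v : ℤ × ℤ} (hu : u.1 ≤ a') (huR : u ∈ Rect a b c d) (hv : b' ≤ v.1)
    (h : Conn ω (Rect a b c d) u v) : HC a' b' c d ω := by
  have key : v.1 ≤ a' ∨ (v ∈ Rect a' b' c d ∧ ∃ y, c ≤ y ∧ y ≤ d ∧
      Conn ω (Rect a' b' c d) (a', y) v) ∨ HC a' b' c d ω := by
    unfold Conn at h
    clear hv
    induction h with
    | refl => exact Or.inl hu
    | @tail w w' hw1 hw2 ih =>
      obtain ⟨hwR, hwR', e, he, hh⟩ := hw2
      rw [mem_Rect] at hwR hwR'
      have hd : w'.1 ≤ w.1 + 1 ∧ w.1 ≤ w'.1 + 1 := by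
        obtain ⟨ex, ey, t⟩ := e
        cases t
        · simp only [ea_mk, eb_false] at hh
          rcases hh with ⟨h5, h6⟩ | ⟨h5, h6⟩ <;> rw [← h5, ← h6] <;> simp only <;> omega
        · simp only [ea_mk, eb_true] at hh
          rcases hh with ⟨h5, h6⟩ | ⟨h5, h6⟩ <;> rw [← h5, ← h6] <;> simp only <;> omega
      rcases ih with h4 | ⟨h4, y, h5, h6, h7⟩ | h4
      · by_cases h5 : w'.1 ≤ a'
        · exact Or.inl h5
        · right; left
          have hw : w ∈ Rect a' b' c d := ⟨by omega, by omega, hwR.2.2.1, hwR.2.2.2⟩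
          have hw' : w' ∈ Rect a' b' c d := ⟨by omega, by omega, hwR'.2.2.1, hwR'.2.2.2⟩
          refine ⟨hw', w.2, hwR.2.2.1, hwR.2.2.2, ?_⟩
          have : (a', w.2) = w := by
            ext
            · simp only; omega
            · rfl
          rw [this]
          exact Relation.ReflTransGen.single ⟨hw, hw', e, he, hh⟩
      · rw [mem_Rect] at h4
        by_cases h8 : w'.1 ≤ a'
        · exact Or.inl h8
        · right
          by_cases h9 : w'.1 ≤ b'
          · left
            have hw' : w' ∈ Rect a' b' c d := ⟨by omega, by omega, hwR'.2.2.1, hwR'.2.2.2⟩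
            exact ⟨hw', y, h5, h6, h7.tail ⟨h4, hw', e, he, hh⟩⟩
          · right
            have : (b', w.2) = w := by
              ext
              · simp only; omega
              · rfl
            refine ⟨y, w.2, h5, h6, h4.2.2.1, h4.2.2.2, ?_⟩
            rw [this]
            exact h7
      · exact Or.inr (Or.inr h4)
  rcases key with h4 | ⟨h4, y, h5, h6, h7⟩ | h4
  · omega
  · rw [mem_Rect] at h4
    have : (b', v.2) = v := by
      ext
      · simp only; omega
      · rfl
    refine ⟨y, v.2, h5, h6, h4.2.2.1, h4.2.2.2, ?_⟩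
    rw [this]
    exact h7
  · exact h4

/-- Monotonicity of the crossing probabilities. -/
theorem hp_mono {w t w' t' : ℤ} (h0 : 0 < w') (h1 : w' ≤ w) (h2 : t ≤ t') : hp w t ≤ hp w' t' := by
  have e1 : hp w' t' = pr (EW 0 w 0 t') {ω | HC 0 w' 0 t' ω} := by
    rw [pr_hc_window (EW_sub le_rfl h1 le_rfl le_rfl)]
    simp
  have e2 : hp w t = pr (EW 0 w 0 t') {ω | HC 0 w 0 t ω} := by
    rw [pr_hc_window (EW_sub le_rfl le_rfl le_rfl h2)]
    simp
  rw [e1, e2]
  refine pr_mono ?_
  rintro ω ⟨y, y', h3, h4, h5, h6, h7⟩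
  have h8 : Conn ω (Rect 0 w 0 t') (0, y) (w, y') := h7.mono le_rfl (by
    intro v hv
    simp only [mem_Rect] at hv ⊢
    omega)
  refine hc_strip le_rfl h0 h1 (u := (0, y)) (v := (w, y')) le_rfl ?_ h1 h8
  simp only [mem_Rect]
  omega

/-- Probabilities of dual events. -/
theorem pr_dual {W W' : Finset Ed} (hW : ∀ e ∈ W, cr e ∈ W') {A : Set (Set Ed)} (hA : Loc W A) :
    pr W' {ω | du ω ∈ A} = pr W A := by
  have hinj : Function.Injective cr := fun x y h => by rw [← dc_cr x, ← dc_cr y, h]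
  rw [← pr_flip W' {ω | du ω ∈ A}, ← pr_pull cr hinj hW A]
  refine pr_congr fun ω _ => ?_
  simp only [Set.mem_setOf_eq]
  rw [hA (du (↑W' \ ω))]
  have : du (↑W' \ ω) ∩ ↑W = cr ⁻¹' ω ∩ ↑W := by
    ext e
    simp only [Set.mem_inter_iff, mem_du, Set.mem_preimage, Set.mem_sdiff, mem_coe, not_and,
      not_not]
    constructor
    · rintro ⟨h1, h2⟩; exact ⟨h1 (hW e h2), h2⟩
    · rintro ⟨h1, h2⟩; exact ⟨fun _ => h1, h2⟩
  rw [this]

theorem du_anti {ω ω' : Set Ed} (h : ω ⊆ ω') : du ω' ⊆ du ω := fun _ h1 h2 => h1 (h h2)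

theorem du_lower {A : Set (Set Ed)} (hA : IsUpperSet A) : IsLowerSet {ω | du ω ∈ A} :=
  fun _ _ h h1 => hA (du_anti h) h1

/-- Dual events in an arbitrary window. -/
theorem pr_dual_ge (W : Finset Ed) {W' : Finset Ed} {A : Set (Set Ed)} (hA : Loc W' A)
    (hA' : IsUpperSet A) : pr W' A ≤ pr W {ω | du ω ∈ A} := by
  rw [← pr_dual (W' := W ∪ W'.image cr) (fun e he => mem_union_right _ (mem_image_of_mem _ he)) hA]
  exact pr_anti subset_union_left (du_lower hA')

/-- Self-duality. -/
theorem hp_dual {w t : ℤ} (hw : 0 < w) (ht : 0 ≤ t) : 1 ≤ hp w t + hp (t + 1) (w - 1) := by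
  have h1 : ∀ ω : Set Ed, VC 0 t 0 w ω ∨ HC (0 - 1) t 0 (w - 1) (du ω) :=
    fun ω => dual_or (by omega) hw ω
  set W := EW 0 t 0 w ∪ (EW (0 - 1) t 0 (w - 1)).image cr with hW
  have h2 : pr W {ω | VC 0 t 0 w ω} = hp w t := by
    rw [pr_vc_window subset_union_left]; simp
  have h3 : pr W {ω | du ω ∈ {ω | HC (0 - 1) t 0 (w - 1) ω}} = hp (t + 1) (w - 1) := by
    rw [pr_dual (W := EW (0 - 1) t 0 (w - 1)) (fun e he => mem_union_right _ (mem_image_of_mem _ he))
      (HC_loc _ _ _ _), pr_hc]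
    congr 1 <;> ring
  rw [← h2, ← h3, ← pr_univ W]
  refine le_trans (pr_mono ?_) (pr_union_le _ _ _)
  intro ω _
  exact h1 ω

theorem hp_half {n : ℤ} (hn : 0 ≤ n) : 1 / 2 ≤ hp (n + 1) n := by
  have := hp_dual (w := n + 1) (t := n) (by omega) hn
  rw [add_sub_cancel_right] at this
  linarith

theorem hp_square {n : ℤ} (hn : 0 < n) : 1 / 2 ≤ hp n n :=
  (hp_half hn.le).trans (hp_mono hn (by omega) le_rfl)

end Pool.Agent.MP_6bd702.H23
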