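import Pool.Agent.Lib.MP_6bd702_pr_h23.Planar

/-!
Duality of crossings.
-/

set_option autoImplicit false

namespace Pool.Agent.MP_6bd702.H23

/-- The primal edge crossed by a dual edge (faces are the vertices of the dual lattice, labelled by
their lower left corners). -/
def cr (e : Ed) : Ed := if e.2.2 then (e.1, e.2.1 + 1, false) else (e.1 + 1, e.2.1, true)

@[simp] theorem cr_false (i j : ℤ) : cr (i, j, false) = (i + 1, j, true) := rfl
@[simp] theorem cr_true (i j : ℤ) : cr (i, j, true) = (i, j + 1, false) := rfl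

/-- The dual configuration: dual edges crossing closed edges. -/
def du (ω : Set Ed) : Set Ed := {e | cr e ∉ ω}

theorem mem_du {ω : Set Ed} {e : Ed} : e ∈ du ω ↔ cr e ∉ ω := Iff.rfl

/-- A bottom-top primal crossing and a left-right dual crossing exclude each other. -/
theorem block {a b c d : ℤ} (hcd : c < d) (hab : a ≤ b) {ω : Set Ed} (h : VC a b c d ω) :
    ¬ HC (a - 1) b c (d - 1) (du ω) := by
  rintro ⟨y, y', hy1, hy2, hy1', hy2', hD⟩
  obtain ⟨x, x', hx1, hx2, _, _, hc⟩ := h
  obtain ⟨D, hDω, hpot, hR⟩ := vc_pot hcd ⟨hx1, hx2⟩ hc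
  have hz : ∀ e, e ∉ ω → D e = 0 := fun e he => by
    by_contra hne
    exact he (hDω e hne).1
  have key : ∀ f : ℤ × ℤ, Conn (du ω) (Rect (a - 1) b c (d - 1)) (a - 1, y) f →
      pot a D f.1 f.2 = 0 := by
    intro f hf
    unfold Conn at hf
    induction hf with
    | refl => exact pot_lt D (by simp) _
    | @tail f g h1 h2 ih =>
      obtain ⟨hf, hg, ⟨ex, ey, eb'⟩, he, hh⟩ := h2
      rw [mem_Rect] at hf hg
      have h0 := hz _ (mem_du.1 he)
      cases eb' with
      | false =>
        simp only [ea_mk, eb_false, cr_false] at hh h0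
        rcases hh with ⟨h3, h4⟩ | ⟨h3, h4⟩
        · subst h3; subst h4
          simp only at hf hg ih ⊢
          rw [pot_succ D (by omega), add_sub_cancel_right, h0, add_zero, ih]
        · subst h3; subst h4
          simp only at hf hg ih ⊢
          rw [pot_succ D (by omega), add_sub_cancel_right, h0, add_zero] at ih
          exact ih
      | true =>
        simp only [ea_mk, eb_true, cr_true] at hh h0
        rcases hh with ⟨h3, h4⟩ | ⟨h3, h4⟩
        · subst h3; subst h4
          simp only at hf hg ih ⊢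
          rw [hpot ex (by omega) (by omega) (ey + 1) (by omega) (by omega), add_sub_cancel_right,
            h0, add_zero, ih]
        · subst h3; subst h4
          simp only at hf hg ih ⊢
          rw [hpot ex (by omega) (by omega) (ey + 1) (by omega) (by omega), add_sub_cancel_right,
            h0, add_zero] at ih
          exact ih
  have h1 := key _ hD
  simp only at h1
  rw [hR y' hy1' (by omega)] at h1
  exact one_ne_zero h1

/-! ### The boundary of a set of faces -/

/-- The edges of the rectangle which separate two faces of the columns `a - 1, ..., b` and rows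
`c, ..., d - 1`. -/
def ES (a b c d : ℤ) : Set Ed :=
  {e | (e.2.2 = true ∧ a ≤ e.1 ∧ e.1 ≤ b ∧ c ≤ e.2.1 ∧ e.2.1 < d) ∨
    (e.2.2 = false ∧ a ≤ e.1 ∧ e.1 < b ∧ c < e.2.1 ∧ e.2.1 < d)}

theorem mem_ES_true {a b c d x y : ℤ} :
    (x, y, true) ∈ ES a b c d ↔ a ≤ x ∧ x ≤ b ∧ c ≤ y ∧ y < d := by
  simp [ES]

theorem mem_ES_false {a b c d x y : ℤ} :
    (x, y, false) ∈ ES a b c d ↔ a ≤ x ∧ x < b ∧ c < y ∧ y < d := by
  simp [ES]

theorem ES_sub {a b c d : ℤ} {e : Ed} (he : e ∈ ES a b c d) :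
    ea e ∈ Rect a b c d ∧ eb e ∈ Rect a b c d := by
  obtain ⟨x, y, t⟩ := e
  cases t with
  | true =>
    rw [mem_ES_true] at he
    simp only [ea_mk, eb_true, mem_Rect]
    omega
  | false =>
    rw [mem_ES_false] at he
    simp only [ea_mk, eb_false, mem_Rect]
    omega

/-- The first face of an edge. -/
def f1 (e : Ed) : ℤ × ℤ := if e.2.2 then (e.1 - 1, e.2.1) else (e.1, e.2.1 - 1)

/-- The second face of an edge. -/
def f2 (e : Ed) : ℤ × ℤ := (e.1, e.2.1)

@[simp] theorem f1_true (x y : ℤ) : f1 (x, y, true) = (x - 1, y) := rfl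
@[simp] theorem f1_false (x y : ℤ) : f1 (x, y, false) = (x, y - 1) := rfl
@[simp] theorem f2_mk (x y : ℤ) (b : Bool) : f2 (x, y, b) = (x, y) := rfl

/-- The boundary edges of a set of faces. -/
def Zs (a b c d : ℤ) (U : Set (ℤ × ℤ)) : Set Ed :=
  {e | e ∈ ES a b c d ∧ ¬ (f1 e ∈ U ↔ f2 e ∈ U)}

/-- The boundary edges with an end in `K`. -/
noncomputable def Cz (a b c d : ℤ) (U K : Set (ℤ × ℤ)) (e : Ed) : ZMod 2 :=
  ind (e ∈ Zs a b c d U ∧ ea e ∈ K)

/-- Hypotheses on the set of faces `U` and the set of vertices `K`. -/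
structure UK (a b c d : ℤ) (U K : Set (ℤ × ℤ)) : Prop where
  left : ∀ y, c ≤ y → y < d → (a - 1, y) ∈ U
  right : ∀ y, c ≤ y → y < d → (b, y) ∉ U
  clo : ∀ e ∈ Zs a b c d U, (ea e ∈ K ↔ eb e ∈ K)

theorem ind_iff_add {P Q : Prop} : ind (¬ (P ↔ Q)) = ind P + ind Q := by
  by_cases hP : P <;> by_cases hQ : Q <;> simp [ind, hP, hQ]
  exact (add_self2 1).symm

section

variable {a b c d : ℤ} {U K : Set (ℤ × ℤ)}

theorem Cz_eq_of_mem (h : UK a b c d U K) {e : Ed} {w : ℤ × ℤ} (hw : ea e = w ∨ eb e = w)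
    (hK : w ∈ K) : Cz a b c d U K e = ind (e ∈ Zs a b c d U) := by
  unfold Cz
  by_cases he : e ∈ Zs a b c d U
  · have : ea e ∈ K := by
      rcases hw with h1 | h1
      · rwa [h1]
      · exact (h.clo e he).2 (by rwa [h1])
    rw [ind_pos he, ind_pos ⟨he, this⟩]
  · rw [ind_neg he, ind_neg fun h' => he h'.1]

theorem Cz_eq_zero (h : UK a b c d U K) {e : Ed} {w : ℤ × ℤ} (hw : ea e = w ∨ eb e = w)
    (hK : w ∉ K) : Cz a b c d U K e = 0 := by
  unfold Cz
  refine ind_neg fun ⟨he, h2⟩ => hK ?_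
  rcases hw with h1 | h1
  · rwa [h1] at h2
  · rw [← h1]; exact (h.clo e he).1 h2

/-- The value of the chain of all boundary edges. -/
theorem ind_Zs {e : Ed} (he : e ∈ ES a b c d) :
    ind (e ∈ Zs a b c d U) = ind (f1 e ∈ U) + ind (f2 e ∈ U) := by
  rw [← ind_iff_add]
  congr 1
  simp only [Zs, eq_iff_iff]
  exact ⟨fun h => h.2, fun h => ⟨he, h⟩⟩

theorem notMem_ES_Zs {e : Ed} (he : e ∉ ES a b c d) : ind (e ∈ Zs a b c d U) = 0 :=
  ind_neg fun h => he h.1

/-- The chain is even at the inner vertices. -/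
theorem bd_Cz (h : UK a b c d U K) (x y : ℤ) (hx1 : a ≤ x) (hx2 : x ≤ b) (hy1 : c < y)
    (hy2 : y < d) : bd (Cz a b c d U K) (x, y) = 0 := by
  unfold bd
  simp only
  by_cases hK : (x, y) ∈ K
  · rw [Cz_eq_of_mem h (e := (x - 1, y, false)) (w := (x, y)) (Or.inr (by simp)) hK,
      Cz_eq_of_mem h (e := (x, y, false)) (w := (x, y)) (Or.inl rfl) hK,
      Cz_eq_of_mem h (e := (x, y - 1, true)) (w := (x, y)) (Or.inr (by simp)) hK,
      Cz_eq_of_mem h (e := (x, y, true)) (w := (x, y)) (Or.inl rfl) hK,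
      ind_Zs (mem_ES_true.2 ⟨hx1, hx2, by omega, by omega⟩),
      ind_Zs (mem_ES_true.2 ⟨hx1, hx2, by omega, by omega⟩)]
    have eL : ind ((x - 1, y, false) ∈ Zs a b c d U)
        = ind ((x - 1, y - 1) ∈ U) + ind ((x - 1, y) ∈ U) := by
      rcases eq_or_lt_of_le hx1 with h1 | h1
      · subst h1
        rw [notMem_ES_Zs (by rw [mem_ES_false]; omega), ind_pos (h.left _ (by omega) (by omega)),
          ind_pos (h.left _ (by omega) (by omega)), add_self2]
      · rw [ind_Zs (mem_ES_false.2 ⟨by omega, by omega, by omega, by omega⟩)]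
        rfl
    have eR : ind ((x, y, false) ∈ Zs a b c d U)
        = ind ((x, y - 1) ∈ U) + ind ((x, y) ∈ U) := by
      rcases eq_or_lt_of_le hx2 with h1 | h1
      · subst h1
        rw [notMem_ES_Zs (by rw [mem_ES_false]; omega), ind_neg (h.right _ (by omega) (by omega)),
          ind_neg (h.right _ (by omega) (by omega)), add_zero]
      · rw [ind_Zs (mem_ES_false.2 ⟨by omega, by omega, by omega, by omega⟩)]
        rfl
    rw [eL, eR]
    simp only [f1_true, f2_mk]
    have e1 := add_self2 (ind ((x - 1, y - 1) ∈ U))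
    have e2 := add_self2 (ind ((x - 1, y) ∈ U))
    have e3 := add_self2 (ind ((x, y - 1) ∈ U))
    have e4 := add_self2 (ind ((x, y) ∈ U))
    linear_combination e1 + e2 + e3 + e4
  · rw [Cz_eq_zero h (e := (x - 1, y, false)) (w := (x, y)) (Or.inr (by simp)) hK,
      Cz_eq_zero h (e := (x, y, false)) (w := (x, y)) (Or.inl rfl) hK,
      Cz_eq_zero h (e := (x, y - 1, true)) (w := (x, y)) (Or.inr (by simp)) hK,
      Cz_eq_zero h (e := (x, y, true)) (w := (x, y)) (Or.inl rfl) hK]
    simp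

theorem Cz_notMem_ES {e : Ed} (he : e ∉ ES a b c d) : Cz a b c d U K e = 0 :=
  ind_neg fun h => he h.1.1

theorem Cz_hor (h : UK a b c d U K) : ∀ i, a - 1 ≤ i → i ≤ b → ∀ j, c < j → j < d →
    pot a (Cz a b c d U K) i j
      = pot a (Cz a b c d U K) i (j - 1) + Cz a b c d U K (i, j, false) :=
  pot_hor _ (fun x y h1 h2 h3 h4 => bd_Cz h x y h1 h2 h3 h4)
    (fun y _ _ => Cz_notMem_ES (by rw [mem_ES_false]; omega))

/-- The potential on the right side does not depend on the height. -/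
theorem Cz_right (h : UK a b c d U K) (hab : a - 1 ≤ b) : ∀ j, c ≤ j → j < d →
    pot a (Cz a b c d U K) b j = pot a (Cz a b c d U K) b c := by
  intro j hj
  induction j, hj using Int.leInduction with
  | base => intro _; rfl
  | succ j hj ih =>
    intro hjd
    rw [Cz_hor h b hab le_rfl (j + 1) (by omega) hjd, add_sub_cancel_right, ih (by omega),
      Cz_notMem_ES (by rw [mem_ES_false]; omega), add_zero]

/-- The potential of all boundary edges. -/
theorem pot_univ (hl : ∀ y, c ≤ y → y < d → (a - 1, y) ∈ U) {j : ℤ} (h1 : c ≤ j) (h2 : j < d) :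
    ∀ i, a - 1 ≤ i → i ≤ b →
      ∑ x ∈ Finset.Icc a i, ind ((x, j, true) ∈ Zs a b c d U) = 1 + ind ((i, j) ∈ U) := by
  intro i hi
  induction i, hi using Int.leInduction with
  | base =>
    intro _
    rw [Finset.Icc_eq_empty (by omega), Finset.sum_empty, ind_pos (hl j h1 h2)]
    exact (add_self2 1).symm
  | succ i hi ih =>
    intro hib
    have : Finset.Icc a (i + 1) = insert (i + 1) (Finset.Icc a i) := by
      ext x; simp only [Finset.mem_Icc, Finset.mem_insert]; omega
    rw [this, Finset.sum_insert (by simp), ih (by omega),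
      ind_Zs (mem_ES_true.2 ⟨by omega, hib, h1, h2⟩)]
    simp only [f1_true, f2_mk, add_sub_cancel_right]
    have e1 := add_self2 (ind ((i, j) ∈ U))
    linear_combination e1

/-- If the potential on the right side is `1`, then `K` contains an edge at every height. -/
theorem exists_of_right (h : UK a b c d U K) (hab : a - 1 ≤ b)
    (h1 : pot a (Cz a b c d U K) b c = 1) {j : ℤ} (hj1 : c ≤ j) (hj2 : j < d) :
    ∃ x, a ≤ x ∧ x ≤ b ∧ (x, j) ∈ K ∧ (x, j + 1) ∈ K := by
  have h2 := Cz_right h hab j hj1 hj2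
  rw [h1] at h2
  unfold pot at h2
  obtain ⟨x, hx, hne⟩ := Finset.exists_ne_zero_of_sum_ne_zero (by rw [h2]; exact one_ne_zero)
  rw [Finset.mem_Icc] at hx
  have h3 : (x, j, true) ∈ Zs a b c d U ∧ ea (x, j, true) ∈ K := by
    by_contra hcon
    exact hne (ind_neg hcon)
  exact ⟨x, hx.1, hx.2, h3.2, by simpa using (h.clo _ h3.1).1 h3.2⟩

end

end Pool.Agent.MP_6bd702.H23
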