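import Mathlib

/-!
# Edges of the square lattice
-/

set_option autoImplicit false

namespace Pool.Agent.MP_6bd702.H23

/-- Edges of the square lattice: `(x, y, false)` joins `(x, y)` and `(x + 1, y)`,
`(x, y, true)` joins `(x, y)` and `(x, y + 1)`. -/
abbrev Ed := ℤ × ℤ × Bool

end Pool.Agent.MP_6bd702.H23
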