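import Pool.Agent.Lib.MP_6bd702_pr_h23.Dual

/-!
Exploration of the dual clusters of the left side; the duality theorem; the Bollobas-Riordan step.
-/

set_option autoImplicit false

namespace Pool.Agent.MP_6bd702.H23

/-- The dual edge crossing a primal edge. -/
def dc (e : Ed) : Ed := if e.2.2 then (e.1 - 1, e.2.1, false) else (e.1, e.2.1 - 1, true)

@[simp] theorem dc_true (x y : ℤ) : dc (x, y, true) = (x - 1, y, false) := rfl
@[simp] theorem dc_false (x y : ℤ) : dc (x, y, false) = (x, y - 1, true) := rfl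

theorem cr_dc (e : Ed) : cr (dc e) = e := by
  obtain ⟨x, y, t⟩ := e
  cases t <;> simp

theorem dc_cr (e : Ed) : dc (cr e) = e := by
  obtain ⟨x, y, t⟩ := e
  cases t <;> simp

theorem ea_dc (e : Ed) : ea (dc e) = f1 e := by
  obtain ⟨x, y, t⟩ := e
  cases t <;> simp

theorem eb_dc (e : Ed) : eb (dc e) = f2 e := by
  obtain ⟨x, y, t⟩ := e
  cases t <;> simp

theorem ES_faces {a b c d : ℤ} {e : Ed} (he : e ∈ ES a b c d) :
    f1 e ∈ Rect (a - 1) b c (d - 1) ∧ f2 e ∈ Rect (a - 1) b c (d - 1) := by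
  obtain ⟨x, y, t⟩ := e
  cases t with
  | true =>
    rw [mem_ES_true] at he
    simp only [f1_true, f2_mk, mem_Rect]
    omega
  | false =>
    rw [mem_ES_false] at he
    simp only [f1_false, f2_mk, mem_Rect]
    omega

/-- The faces of the columns `a - 1, ..., b` and rows `c, ..., d - 1` which are joined to the
column `a - 1` across closed edges of the rectangle. -/
def Ux (a b c d : ℤ) (ω : Set Ed) : Set (ℤ × ℤ) :=
  {f | ∃ y, c ≤ y ∧ y < d ∧
    Conn (du (ω ∪ (ES a b c d)ᶜ)) (Rect (a - 1) b c (d - 1)) (a - 1, y) f}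

section

variable {a b c d : ℤ} {ω : Set Ed}

theorem Ux_left {y : ℤ} (h1 : c ≤ y) (h2 : y < d) : (a - 1, y) ∈ Ux a b c d ω :=
  ⟨y, h1, h2, .refl⟩

theorem Ux_rect (hab : a - 1 ≤ b) {f : ℤ × ℤ} (hf : f ∈ Ux a b c d ω) :
    f ∈ Rect (a - 1) b c (d - 1) := by
  obtain ⟨y, h1, h2, h3⟩ := hf
  exact h3.mem ⟨le_rfl, hab, h1, by simp only; omega⟩

/-- The faces on both sides of a closed edge of the rectangle are explored together. -/
theorem Ux_step {e : Ed} (he : e ∈ ES a b c d) (hω : e ∉ ω) :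
    f1 e ∈ Ux a b c d ω ↔ f2 e ∈ Ux a b c d ω := by
  have hF := ES_faces he
  have hd : dc e ∈ du (ω ∪ (ES a b c d)ᶜ) := by
    rw [mem_du, cr_dc]
    rintro (h | h)
    · exact hω h
    · exact h he
  constructor
  · rintro ⟨y, h1, h2, h3⟩
    exact ⟨y, h1, h2, h3.tail ⟨hF.1, hF.2, dc e, hd, Or.inl ⟨ea_dc e, eb_dc e⟩⟩⟩
  · rintro ⟨y, h1, h2, h3⟩
    exact ⟨y, h1, h2, h3.tail ⟨hF.2, hF.1, dc e, hd, Or.inr ⟨ea_dc e, eb_dc e⟩⟩⟩

/-- The boundary edges of the explored set are open. -/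
theorem Zs_sub : Zs a b c d (Ux a b c d ω) ⊆ ω := by
  rintro e ⟨he, h⟩
  by_contra hω
  exact h (Ux_step he hω)

theorem Zs_sub_ES {U : Set (ℤ × ℤ)} : Zs a b c d U ⊆ ES a b c d := fun _ h => h.1

/-- Exploration induction. -/
theorem Ux_induction {p : ℤ × ℤ → Prop} (h0 : ∀ y, c ≤ y → y < d → p (a - 1, y))
    (hs : ∀ e ∈ ES a b c d, e ∉ ω → f1 e ∈ Ux a b c d ω → f2 e ∈ Ux a b c d ω →
      (p (f1 e) ↔ p (f2 e))) :
    ∀ f ∈ Ux a b c d ω, p f := by
  rintro f ⟨y, h1, h2, h3⟩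
  unfold Conn at h3
  induction h3 with
  | refl => exact h0 y h1 h2
  | @tail f g h4 h5 ih =>
    have hf : f ∈ Ux a b c d ω := ⟨y, h1, h2, h4⟩
    have hg : g ∈ Ux a b c d ω := ⟨y, h1, h2, h4.tail h5⟩
    obtain ⟨_, _, e, he, hh⟩ := h5
    rw [mem_du] at he
    have he1 : cr e ∈ ES a b c d := by
      by_contra h; exact he (Or.inr h)
    have he2 : cr e ∉ ω := fun h => he (Or.inl h)
    have e1 : f1 (cr e) = ea e := by rw [← ea_dc, dc_cr]
    have e2 : f2 (cr e) = eb e := by rw [← eb_dc, dc_cr]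
    have key := hs (cr e) he1 he2
    rw [e1, e2] at key
    rcases hh with ⟨h6, h7⟩ | ⟨h6, h7⟩
    · rw [h6, h7] at key
      exact (key hf hg).1 ih
    · rw [h6, h7] at key
      exact (key hg hf).2 ih

/-- The explored set is determined by the edges adjacent to it. -/
theorem Ux_congr {ω' : Set Ed} (h : ∀ e ∈ ES a b c d, (f1 e ∈ Ux a b c d ω ∨ f2 e ∈ Ux a b c d ω) →
    (e ∈ ω ↔ e ∈ ω')) : Ux a b c d ω' = Ux a b c d ω := by
  apply Set.Subset.antisymm
  · refine Ux_induction (ω := ω') (p := fun f => f ∈ Ux a b c d ω)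
      (fun y h1 h2 => Ux_left h1 h2) ?_
    intro e he hω' _ _
    by_cases h1 : f1 e ∈ Ux a b c d ω ∨ f2 e ∈ Ux a b c d ω
    · exact Ux_step he fun h2 => hω' ((h e he h1).1 h2)
    · push Not at h1
      exact ⟨fun h2 => absurd h2 h1.1, fun h2 => absurd h2 h1.2⟩
  · refine Ux_induction (ω := ω) (p := fun f => f ∈ Ux a b c d ω')
      (fun y h1 h2 => Ux_left h1 h2) ?_
    intro e he hω h1 _
    exact Ux_step he fun h2 => hω ((h e he (Or.inl h1)).2 h2)

/-- The cluster of a vertex in the boundary edges. -/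
theorem UK_cluster {U : Set (ℤ × ℤ)} (hl : ∀ y, c ≤ y → y < d → (a - 1, y) ∈ U)
    (hr : ∀ y, c ≤ y → y < d → (b, y) ∉ U) (T : Set (ℤ × ℤ)) :
    UK a b c d U {w | ∃ v ∈ T, Conn (Zs a b c d U) (Rect a b c d) v w} where
  left := hl
  right := hr
  clo e he := by
    have hR := ES_sub he.1
    constructor
    · rintro ⟨v, hv, h⟩
      exact ⟨v, hv, h.tail ⟨hR.1, hR.2, e, he, Or.inl ⟨rfl, rfl⟩⟩⟩
    · rintro ⟨v, hv, h⟩
      exact ⟨v, hv, h.tail ⟨hR.2, hR.1, e, he, Or.inr ⟨rfl, rfl⟩⟩⟩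

/-- Duality, first form. -/
theorem vc_of_notMem (hab : a - 1 ≤ b) (hcd : c < d)
    (hr : ∀ y, c ≤ y → y < d → (b, y) ∉ Ux a b c d ω) : VC a b c d ω := by
  set U := Ux a b c d ω with hU
  have hl : ∀ y, c ≤ y → y < d → (a - 1, y) ∈ U := fun y h1 h2 => Ux_left h1 h2
  set K : Set (ℤ × ℤ) := {w | ∃ v ∈ {v : ℤ × ℤ | a ≤ v.1 ∧ v.1 ≤ b ∧ v.2 = c},
    Conn (Zs a b c d U) (Rect a b c d) v w} with hK
  have hUK : UK a b c d U K := UK_cluster hl hr _
  have h1 : pot a (Cz a b c d U K) b c = 1 := by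
    have h2 := pot_univ (U := U) (b := b) hl le_rfl hcd b hab le_rfl
    rw [ind_neg (hr c le_rfl hcd), add_zero] at h2
    rw [← h2]
    unfold pot
    refine Finset.sum_congr rfl fun x hx => ?_
    rw [Finset.mem_Icc] at hx
    refine Cz_eq_of_mem hUK (w := (x, c)) (Or.inl rfl) ?_
    exact ⟨(x, c), ⟨hx.1, hx.2, rfl⟩, .refl⟩
  obtain ⟨x', hx1, hx2, -, h3⟩ := exists_of_right hUK hab h1 (j := d - 1) (by omega) (by omega)
  rw [sub_add_cancel] at h3
  obtain ⟨⟨x, y⟩, ⟨h4, h5, h6⟩, h7⟩ := h3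
  simp only at h4 h5 h6
  subst h6
  exact ⟨x, x', h4, h5, hx1, hx2, h7.mono Zs_sub le_rfl⟩

theorem hc_of_mem {y : ℤ} (h1 : c ≤ y) (h2 : y < d) (h : (b, y) ∈ Ux a b c d ω) :
    HC (a - 1) b c (d - 1) (du ω) := by
  obtain ⟨y', h3, h4, h5⟩ := h
  refine ⟨y', y, h3, by omega, h1, by omega, h5.mono ?_ le_rfl⟩
  intro e he
  rw [mem_du] at he ⊢
  exact fun h6 => he (Or.inl h6)

/-- Duality: one of the two crossings exists. -/
theorem dual_or (hab : a - 1 ≤ b) (hcd : c < d) (ω : Set Ed) :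
    VC a b c d ω ∨ HC (a - 1) b c (d - 1) (du ω) := by
  by_cases h : ∃ y, c ≤ y ∧ y < d ∧ (b, y) ∈ Ux a b c d ω
  · obtain ⟨y, h1, h2, h3⟩ := h
    exact Or.inr (hc_of_mem h1 h2 h3)
  · push Not at h
    exact Or.inl (vc_of_notMem hab hcd h)

end

/-! ### The Bollobas-Riordan step -/

/-- The vertex is a corner of a face of `F`. -/
def Touch (F : Set (ℤ × ℤ)) (v : ℤ × ℤ) : Prop :=
  ∃ i j, (i = v.1 - 1 ∨ i = v.1) ∧ (j = v.2 - 1 ∨ j = v.2) ∧ (i, j) ∈ F

/-- The reflection of faces in the line `y = n`. -/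
def rf (n : ℤ) (f : ℤ × ℤ) : ℤ × ℤ := (f.1, 2 * n - 1 - f.2)

/-- The edges which are adjacent neither to `U` nor to its mirror image. -/
def Av (n : ℤ) (U : Set (ℤ × ℤ)) : Set Ed :=
  {e | f1 e ∉ U ∧ f2 e ∉ U ∧ rf n (f1 e) ∉ U ∧ rf n (f2 e) ∉ U}

theorem br_step {n m : ℤ} (hn : 1 ≤ n) (hm : n < m) {ω ξ : Set Ed}
    (hr : ∀ y, 0 ≤ y → y < n → (n, y) ∉ Ux 0 n 0 n ω) {v : ℤ × ℤ} {y : ℤ}
    (hv : v ∈ Rect 0 m 0 (2 * n)) (ht : Touch (Ux 0 n 0 n ω) v)
    (hc : Conn (ξ ∩ Av n (Ux 0 n 0 n ω)) (Rect 0 m 0 (2 * n)) v (m, y)) :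
    ∃ x x', 0 ≤ x ∧ x ≤ n ∧ 0 ≤ x' ∧ x' ≤ n ∧
      Conn (Zs 0 n 0 n (Ux 0 n 0 n ω)) (Rect 0 n 0 n) v (x, 0) ∧
      Conn (Zs 0 n 0 n (Ux 0 n 0 n ω)) (Rect 0 n 0 n) v (x', n) := by
  set U := Ux 0 n 0 n ω with hU
  have hl : ∀ y, 0 ≤ y → y < n → ((0 : ℤ) - 1, y) ∈ U := fun y h1 h2 => Ux_left h1 h2
  set K : Set (ℤ × ℤ) := {w | ∃ v' ∈ ({v} : Set (ℤ × ℤ)),
    Conn (Zs 0 n 0 n U) (Rect 0 n 0 n) v' w} with hK
  have hUK : UK 0 n 0 n U K := UK_cluster hl hr _
  have hvK : v ∈ K := ⟨v, rfl, .refl⟩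
  have hUR : ∀ f ∈ U, f ∈ Rect (0 - 1) n 0 (n - 1) := fun f hf => Ux_rect (by omega) hf
  have hUcol : ∀ i j, (i, j) ∈ U → i < n := by
    intro i j h
    have h1 := hUR _ h
    rw [mem_Rect] at h1
    simp only at h1
    by_contra h2
    have h3 : i = n := by omega
    subst h3
    exact hr j (by omega) (by omega) h
  let C := Cz 0 n 0 n U K
  let P : ℤ → ℤ → ZMod 2 := fun i j => pot 0 C i j
  -- potential zero on the explored faces
  have hP0 : ∀ f ∈ U, P f.1 f.2 = 0 := by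
    refine Ux_induction (p := fun f => P f.1 f.2 = 0) ?_ ?_
    · intro y _ _
      exact pot_lt _ (by simp) _
    · intro e he hω _ _
      have h0 : C e = 0 := ind_neg fun h => hω (Zs_sub h.1)
      obtain ⟨ex, ey, t⟩ := e
      cases t with
      | true =>
        rw [mem_ES_true] at he
        simp only [f1_true, f2_mk, P]
        rw [pot_succ C (i := ex) (by omega), h0, add_zero]
      | false =>
        rw [mem_ES_false] at he
        simp only [f1_false, f2_mk, P]
        rw [Cz_hor hUK ex (by omega) (by omega) ey (by omega) (by omega)]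
        change _ ↔ _ + C (ex, ey, false) = 0
        rw [h0, add_zero]
  -- the modified potential is constant around a vertex
  have hcol : ∀ (w : ℤ × ℤ) (j : ℤ), 0 ≤ w.1 → 0 ≤ j → j < n → (j = w.2 - 1 ∨ j = w.2) →
      P (min (w.1 - 1) n) j + ind (w ∈ K) * ind ((w.1 - 1, j) ∈ U)
        = P (min w.1 n) j + ind (w ∈ K) * ind ((w.1, j) ∈ U) := by
    intro w j hw h1 h2 h3
    rcases le_or_gt w.1 n with h4 | h4
    · rw [min_eq_left (by omega), min_eq_left h4]
      have h5 : P w.1 j = P (w.1 - 1) j + C (w.1, j, true) := pot_succ C hw j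
      have h6 : ea ((w.1, j, true) : Ed) = w ∨ eb ((w.1, j, true) : Ed) = w := by
        rcases h3 with h3 | h3
        · right; subst h3; rw [eb_true, sub_add_cancel]
        · left; subst h3; rfl
      by_cases hwK : w ∈ K
      · rw [h5, ind_pos hwK, show C (w.1, j, true) = _ from Cz_eq_of_mem hUK h6 hwK,
          ind_Zs (mem_ES_true.2 ⟨hw, h4, h1, h2⟩)]
        simp only [f1_true, f2_mk]
        have := add_self2 (ind ((w.1, j) ∈ U))
        linear_combination -this
      · rw [h5, ind_neg hwK, show C (w.1, j, true) = _ from Cz_eq_zero hUK h6 hwK]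
        ring
    · rw [min_eq_right (by omega), min_eq_right (by omega),
        ind_neg (P := (w.1 - 1, j) ∈ U) fun h => by have := hUcol _ _ h; omega,
        ind_neg (P := (w.1, j) ∈ U) fun h => by have := hUcol _ _ h; omega]
  have hrow : ∀ (w : ℤ × ℤ) (i : ℤ), 0 ≤ w.1 → (i = w.1 - 1 ∨ i = w.1) → 0 < w.2 → w.2 < n →
      P (min i n) (w.2 - 1) + ind (w ∈ K) * ind ((i, w.2 - 1) ∈ U)
        = P (min i n) w.2 + ind (w ∈ K) * ind ((i, w.2) ∈ U) := by
    intro w i hw h1 h2 h3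
    rcases le_or_gt i n with h4 | h4
    · rw [min_eq_left h4]
      have h5 : P i w.2 = P i (w.2 - 1) + C (i, w.2, false) :=
        Cz_hor hUK i (by omega) h4 w.2 h2 h3
      have h6 : ea ((i, w.2, false) : Ed) = w ∨ eb ((i, w.2, false) : Ed) = w := by
        rcases h1 with h1 | h1
        · right; subst h1; rw [eb_false, sub_add_cancel]
        · left; subst h1; rfl
      by_cases hwK : w ∈ K
      · have h7 : C (i, w.2, false) = ind ((i, w.2 - 1) ∈ U) + ind ((i, w.2) ∈ U) := by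
          rw [show C (i, w.2, false) = _ from Cz_eq_of_mem hUK h6 hwK]
          by_cases h8 : 0 ≤ i ∧ i < n
          · rw [ind_Zs (mem_ES_false.2 ⟨h8.1, h8.2, h2, h3⟩)]
            rfl
          · rw [notMem_ES_Zs (by rw [mem_ES_false]; omega)]
            rcases lt_or_ge i 0 with h9 | h9
            · have h10 : i = 0 - 1 := by omega
              rw [h10, ind_pos (hl _ (by omega) (by omega)), ind_pos (hl _ h2.le h3)]
              exact (add_self2 1).symm
            · rw [ind_neg (P := (i, w.2 - 1) ∈ U) fun h => by have := hUcol _ _ h; omega,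
                ind_neg (P := (i, w.2) ∈ U) fun h => by have := hUcol _ _ h; omega, add_zero]
        rw [h5, h7, ind_pos hwK]
        have := add_self2 (ind ((i, w.2) ∈ U))
        linear_combination -this
      · rw [h5, ind_neg hwK, show C (i, w.2, false) = _ from Cz_eq_zero hUK h6 hwK]
        ring
    · rw [min_eq_right (by omega)]
      have h5 : P n w.2 = P n (w.2 - 1) + C (n, w.2, false) :=
        Cz_hor hUK n (by omega) le_rfl w.2 h2 h3
      rw [h5, show C (n, w.2, false) = 0 from Cz_notMem_ES (by rw [mem_ES_false]; omega),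
        ind_neg (P := (i, w.2 - 1) ∈ U) fun h => by have := hUcol _ _ h; omega,
        ind_neg (P := (i, w.2) ∈ U) fun h => by have := hUcol _ _ h; omega]
      ring
  -- hence: two unexplored faces around a vertex have the same potential
  have hmod : ∀ (w : ℤ × ℤ), 0 ≤ w.1 → 0 ≤ w.2 → w.2 ≤ n → ∀ i j i' j',
      (i = w.1 - 1 ∨ i = w.1) → (j = w.2 - 1 ∨ j = w.2) → 0 ≤ j → j < n →
      (i' = w.1 - 1 ∨ i' = w.1) → (j' = w.2 - 1 ∨ j' = w.2) → 0 ≤ j' → j' < n →
      P (min i n) j + ind (w ∈ K) * ind ((i, j) ∈ U)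
        = P (min i' n) j' + ind (w ∈ K) * ind ((i', j') ∈ U) := by
    intro w hw1 hw2 hw3 i j i' j' hi hj hj1 hj2 hi' hj' hj1' hj2'
    -- first move the column, then the row
    have hA : P (min i n) j + ind (w ∈ K) * ind ((i, j) ∈ U)
        = P (min i' n) j + ind (w ∈ K) * ind ((i', j) ∈ U) := by
      have h1 := hcol w j hw1 hj1 hj2 hj
      rcases hi with rfl | rfl <;> rcases hi' with rfl | rfl
      · rfl
      · exact h1
      · exact h1.symm
      · rfl
    rw [hA]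
    rcases hj with rfl | rfl <;> rcases hj' with rfl | rfl
    · rfl
    · exact hrow w i' hw1 hi' (by omega) hj2'
    · exact (hrow w i' hw1 hi' (by omega) hj2).symm
    · rfl
  -- the folded height
  let fo : ℤ → ℤ := fun y => if y ≤ n then y else 2 * n - y
  have hfo : ∀ y, 0 ≤ y → y ≤ 2 * n → 0 ≤ fo y ∧ fo y ≤ n := by
    intro y h1 h2
    simp only [fo]
    split_ifs <;> omega
  -- the invariant
  let Good : ℤ × ℤ → Prop := fun w => ∀ i j, (i = w.1 - 1 ∨ i = w.1) →
    (j = fo w.2 - 1 ∨ j = fo w.2) → 0 ≤ j → j < n → (i, j) ∉ U → P (min i n) j = 1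
  have hv' := hv
  rw [mem_Rect] at hv'
  obtain ⟨fi, fj, hfi, hfj, hfU⟩ := ht
  have hfR := hUR _ hfU
  rw [mem_Rect] at hfR
  simp only at hfR
  have hfc := hUcol _ _ hfU
  have hv2 : v.2 ≤ n := by omega
  have hgood0 : Good v := by
    intro i j hi hj hj1 hj2 hij
    have hfv : fo v.2 = v.2 := by simp only [fo]; rw [if_pos hv2]
    rw [hfv] at hj
    have h1 := hmod v hv'.1 hv'.2.2.1 hv2 i j fi fj hi hj hj1 hj2 hfi hfj (by omega) (by omega)
    rw [ind_pos hvK, ind_neg hij, ind_pos hfU, min_eq_left (by omega : fi ≤ n), hP0 _ hfU] at h1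
    linear_combination h1
  have hgood : ∀ w, Conn (ξ ∩ Av n U) (Rect 0 m 0 (2 * n)) v w → Good w := by
    intro w hw
    unfold Conn at hw
    induction hw with
    | refl => exact hgood0
    | @tail u w h1 h2 ih =>
      obtain ⟨hu, hw, e, ⟨_, heA⟩, hh⟩ := h2
      rw [mem_Rect] at hu hw
      -- a common unexplored face
      have hface : ∃ i j, (i = u.1 - 1 ∨ i = u.1) ∧ (i = w.1 - 1 ∨ i = w.1) ∧
          (j = fo u.2 - 1 ∨ j = fo u.2) ∧ (j = fo w.2 - 1 ∨ j = fo w.2) ∧ 0 ≤ j ∧ j < n ∧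
          (i, j) ∉ U := by
        obtain ⟨ex, ey, t⟩ := e
        obtain ⟨hA1, hA2, hA3, hA4⟩ := heA
        cases t with
        | true =>
          simp only [f1_true, f2_mk, rf] at hA1 hA2 hA3 hA4
          simp only [ea_mk, eb_true] at hh
          have hux : u.1 = ex ∧ w.1 = ex ∧ ((u.2 = ey ∧ w.2 = ey + 1) ∨ (w.2 = ey ∧ u.2 = ey + 1)) := by
            rcases hh with ⟨h3, h4⟩ | ⟨h3, h4⟩
            · rw [← h3, ← h4]; simp
            · rw [← h3, ← h4]; simp
          by_cases h5 : ey < n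
          · refine ⟨ex, ey, by omega, by omega, ?_, ?_, by omega, h5, hA2⟩
            · simp only [fo]; split_ifs <;> omega
            · simp only [fo]; split_ifs <;> omega
          · refine ⟨ex, 2 * n - 1 - ey, by omega, by omega, ?_, ?_, by omega, by omega, hA4⟩
            · simp only [fo]; split_ifs <;> omega
            · simp only [fo]; split_ifs <;> omega
        | false =>
          simp only [f1_false, f2_mk, rf] at hA1 hA2 hA3 hA4
          simp only [ea_mk, eb_false] at hh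
          have hux : u.2 = ey ∧ w.2 = ey ∧ ((u.1 = ex ∧ w.1 = ex + 1) ∨ (w.1 = ex ∧ u.1 = ex + 1)) := by
            rcases hh with ⟨h3, h4⟩ | ⟨h3, h4⟩
            · rw [← h3, ← h4]; simp
            · rw [← h3, ← h4]; simp
          rcases lt_trichotomy ey n with h5 | h5 | h5
          · refine ⟨ex, ey, by omega, by omega, ?_, ?_, by omega, h5, hA2⟩
            · simp only [fo]; split_ifs <;> omega
            · simp only [fo]; split_ifs <;> omega
          · refine ⟨ex, ey - 1, by omega, by omega, ?_, ?_, by omega, by omega, hA1⟩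
            · simp only [fo]; split_ifs <;> omega
            · simp only [fo]; split_ifs <;> omega
          · refine ⟨ex, 2 * n - 1 - (ey - 1), by omega, by omega, ?_, ?_, by omega, by omega, hA3⟩
            · simp only [fo]; split_ifs <;> omega
            · simp only [fo]; split_ifs <;> omega
      obtain ⟨i, j, h3, h4, h5, h6, h7, h8, h9⟩ := hface
      have h10 : P (min i n) j = 1 := ih i j h3 h5 h7 h8 h9
      intro i' j' hi' hj' hj1' hj2' hij'
      have hfw := hfo w.2 hw.2.2.1 hw.2.2.2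
      have h11 := hmod (w.1, fo w.2) hw.1 hfw.1 hfw.2 i j i' j' h4 h6 h7 h8 hi' hj' hj1' hj2'
      rw [ind_neg (P := (i, j) ∈ U) h9, ind_neg (P := (i', j') ∈ U) hij', mul_zero, add_zero,
        add_zero, h10] at h11
      exact h11.symm
  have hend := hgood _ hc
  have hyR := hc.mem hv
  rw [mem_Rect] at hyR
  simp only at hyR
  have hfy := hfo y hyR.2.2.1 hyR.2.2.2
  have h1 : pot 0 C n 0 = 1 := by
    have h2 : P (min (m - 1) n) (min (fo y) (n - 1)) = 1 := by
      refine hend (m - 1) (min (fo y) (n - 1)) (Or.inl rfl) ?_ ?_ ?_ ?_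
      · simp only
        rcases le_or_gt (fo y) (n - 1) with h3 | h3
        · right; exact min_eq_left h3
        · left; rw [min_eq_right h3.le]; omega
      · exact le_min hfy.1 (by omega)
      · exact lt_of_le_of_lt (min_le_right _ _) (by omega)
      · intro h3
        have := hUcol _ _ h3
        omega
    rw [min_eq_right (by omega)] at h2
    have h3 := Cz_right hUK (by omega) (min (fo y) (n - 1)) (le_min hfy.1 (by omega))
      (lt_of_le_of_lt (min_le_right _ _) (by omega))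
    rw [← h3]
    exact h2
  obtain ⟨x, hx1, hx2, h3, _⟩ := exists_of_right hUK (by omega) h1 (j := 0) le_rfl (by omega)
  obtain ⟨x', hx1', hx2', _, h4⟩ := exists_of_right hUK (by omega) h1 (j := n - 1) (by omega)
    (by omega)
  rw [sub_add_cancel] at h4
  obtain ⟨v1, hv1, h5⟩ := h3
  obtain ⟨v2, hv2', h6⟩ := h4
  rw [Set.mem_singleton_iff] at hv1 hv2'
  subst hv1
  subst hv2'
  exact ⟨x, x', hx1, hx2, hx1', hx2', h5, h6⟩

end Pool.Agent.MP_6bd702.H23
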