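import Pool.Agent.Lib.MP_6bd702_pr_h23.EdDefs

/-!
Planarity on the square lattice by mod 2 potentials: duality of crossings, crossings meet,
primal and dual crossings exclude each other.
-/

set_option autoImplicit false

namespace Pool.Agent.MP_6bd702.H23

/-- The first end. -/
def ea (e : Ed) : ℤ × ℤ := (e.1, e.2.1)

/-- The second end. -/
def eb (e : Ed) : ℤ × ℤ := if e.2.2 then (e.1, e.2.1 + 1) else (e.1 + 1, e.2.1)

@[simp] theorem ea_mk (x y : ℤ) (b : Bool) : ea (x, y, b) = (x, y) := rfl
@[simp] theorem eb_false (x y : ℤ) : eb (x, y, false) = (x + 1, y) := rfl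
@[simp] theorem eb_true (x y : ℤ) : eb (x, y, true) = (x, y + 1) := rfl

/-- One step along an edge of `ω` inside `R`. -/
def Step (ω : Set Ed) (R : Set (ℤ × ℤ)) (u v : ℤ × ℤ) : Prop :=
  u ∈ R ∧ v ∈ R ∧ ∃ e ∈ ω, (ea e = u ∧ eb e = v) ∨ (ea e = v ∧ eb e = u)

/-- `u` and `v` are joined by a path of edges of `ω` inside `R`. -/
def Conn (ω : Set Ed) (R : Set (ℤ × ℤ)) (u v : ℤ × ℤ) : Prop := Relation.ReflTransGen (Step ω R) u v

/-- The rectangle. -/
def Rect (a b c d : ℤ) : Set (ℤ × ℤ) := {v | a ≤ v.1 ∧ v.1 ≤ b ∧ c ≤ v.2 ∧ v.2 ≤ d}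

theorem mem_Rect {a b c d : ℤ} {v : ℤ × ℤ} :
    v ∈ Rect a b c d ↔ a ≤ v.1 ∧ v.1 ≤ b ∧ c ≤ v.2 ∧ v.2 ≤ d := Iff.rfl

/-- Left-right crossing. -/
def HC (a b c d : ℤ) (ω : Set Ed) : Prop :=
  ∃ y y', c ≤ y ∧ y ≤ d ∧ c ≤ y' ∧ y' ≤ d ∧ Conn ω (Rect a b c d) (a, y) (b, y')

/-- Bottom-top crossing. -/
def VC (a b c d : ℤ) (ω : Set Ed) : Prop :=
  ∃ x x', a ≤ x ∧ x ≤ b ∧ a ≤ x' ∧ x' ≤ b ∧ Conn ω (Rect a b c d) (x, c) (x', d)

theorem Step.symm {ω : Set Ed} {R : Set (ℤ × ℤ)} {u v : ℤ × ℤ} (h : Step ω R u v) :
    Step ω R v u := by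
  obtain ⟨hu, hv, e, he, h⟩ := h
  exact ⟨hv, hu, e, he, h.symm⟩

theorem Conn.symm {ω : Set Ed} {R : Set (ℤ × ℤ)} {u v : ℤ × ℤ} (h : Conn ω R u v) :
    Conn ω R v u := by
  unfold Conn at *
  induction h with
  | refl => exact .refl
  | tail _ h2 ih => exact .head h2.symm ih

theorem Conn.trans {ω : Set Ed} {R : Set (ℤ × ℤ)} {u v w : ℤ × ℤ} (h : Conn ω R u v)
    (h' : Conn ω R v w) : Conn ω R u w := Relation.ReflTransGen.trans h h'

theorem Step.mono {ω ω' : Set Ed} {R R' : Set (ℤ × ℤ)} {u v : ℤ × ℤ} (h : Step ω R u v)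
    (hω : ω ⊆ ω') (hR : R ⊆ R') : Step ω' R' u v := by
  obtain ⟨hu, hv, e, he, h⟩ := h
  exact ⟨hR hu, hR hv, e, hω he, h⟩

theorem Conn.mono {ω ω' : Set Ed} {R R' : Set (ℤ × ℤ)} {u v : ℤ × ℤ} (h : Conn ω R u v)
    (hω : ω ⊆ ω') (hR : R ⊆ R') : Conn ω' R' u v := by
  unfold Conn at *
  induction h with
  | refl => exact .refl
  | tail _ h2 ih => exact ih.tail (h2.mono hω hR)

theorem Conn.mem {ω : Set Ed} {R : Set (ℤ × ℤ)} {u v : ℤ × ℤ} (h : Conn ω R u v) (hu : u ∈ R) :
    v ∈ R := by
  unfold Conn at h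
  induction h with
  | refl => exact hu
  | tail _ h2 _ => exact h2.2.1

/-! ### Chains and potentials -/

/-- The boundary of a mod 2 chain of edges. -/
def bd (c : Ed → ZMod 2) (w : ℤ × ℤ) : ZMod 2 :=
  c (w.1 - 1, w.2, false) + c (w.1, w.2, false) + c (w.1, w.2 - 1, true) + c (w.1, w.2, true)

open Classical in
/-- Indicator. -/
noncomputable def ind (P : Prop) : ZMod 2 := if P then 1 else 0

theorem ind_pos {P : Prop} (h : P) : ind P = 1 := by simp [ind, h]
theorem ind_neg {P : Prop} (h : ¬ P) : ind P = 0 := by simp [ind, h]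

theorem add_self2 (x : ZMod 2) : x + x = 0 := CharTwo.add_self_eq_zero x

theorem zmod2_cases (x : ZMod 2) : x = 0 ∨ x = 1 := by
  revert x; decide

/-- The potential of a chain: the number of vertical edges to the left of the face. -/
noncomputable def pot (a : ℤ) (c : Ed → ZMod 2) (i j : ℤ) : ZMod 2 := ∑ x ∈ Finset.Icc a i, c (x, j, true)

theorem pot_lt {a : ℤ} (c : Ed → ZMod 2) {i : ℤ} (h : i < a) (j : ℤ) : pot a c i j = 0 := by
  unfold pot
  rw [Finset.Icc_eq_empty (by omega), Finset.sum_empty]

theorem pot_succ {a : ℤ} (c : Ed → ZMod 2) {i : ℤ} (h : a ≤ i) (j : ℤ) :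
    pot a c i j = pot a c (i - 1) j + c (i, j, true) := by
  unfold pot
  have : Finset.Icc a i = insert i (Finset.Icc a (i - 1)) := by
    ext x; simp only [Finset.mem_Icc, Finset.mem_insert]; omega
  rw [this, Finset.sum_insert (by simp), add_comm]

/-- The potential changes across horizontal edges as the chain. -/
theorem pot_hor {a b c₀ d₀ : ℤ} (c : Ed → ZMod 2)
    (hev : ∀ x y, a ≤ x → x ≤ b → c₀ < y → y < d₀ → bd c (x, y) = 0)
    (hl : ∀ y, c₀ < y → y < d₀ → c (a - 1, y, false) = 0) :
    ∀ i, a - 1 ≤ i → i ≤ b → ∀ j, c₀ < j → j < d₀ →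
      pot a c i j = pot a c i (j - 1) + c (i, j, false) := by
  intro i hi
  induction i, hi using Int.leInduction with
  | base =>
    intro _ j h1 h2
    rw [pot_lt c (by omega), pot_lt c (by omega), hl j h1 h2, add_zero]
  | succ i hi ih =>
    intro hib j h1 h2
    rw [pot_succ c (show a ≤ i + 1 by omega), pot_succ c (show a ≤ i + 1 by omega)]
    simp only [add_sub_cancel_right]
    rw [ih (by omega) j h1 h2]
    have h := hev (i + 1) j (by omega) hib h1 h2
    unfold bd at h
    simp only [add_sub_cancel_right] at h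
    have e1 := add_self2 (c (i + 1, j, false))
    have e2 := add_self2 (c (i + 1, j - 1, true))
    linear_combination h - e1 - e2

/-- A path gives a chain with the ends as boundary. -/
theorem Conn.chain {ω : Set Ed} {R : Set (ℤ × ℤ)} {u v : ℤ × ℤ} (h : Conn ω R u v) :
    ∃ D : Ed → ZMod 2, (∀ e, D e ≠ 0 → e ∈ ω ∧ Conn ω R u (ea e) ∧ Conn ω R u (eb e) ∧
      ea e ∈ R ∧ eb e ∈ R) ∧ ∀ w, bd D w = ind (w = u) + ind (w = v) := by
  classical
  unfold Conn at h
  induction h with
  | refl =>
    exact ⟨0, fun e he => absurd rfl he, fun w => by simp [bd, add_self2]⟩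
  | @tail v' v'' h1 h2 ih =>
    obtain ⟨D, hD, hb⟩ := ih
    obtain ⟨hv', hv'', e, he, hh⟩ := h2
    have hcv' : Conn ω R u v' := h1
    have hcv'' : Conn ω R u v'' := h1.tail ⟨hv', hv'', e, he, hh⟩
    refine ⟨fun f => D f + if f = e then 1 else 0, ?_, ?_⟩
    · intro f hf
      by_cases hfe : f = e
      · subst hfe
        rcases hh with ⟨h3, h4⟩ | ⟨h3, h4⟩
        · rw [h3, h4]; exact ⟨he, hcv', hcv'', hv', hv''⟩
        · rw [h3, h4]; exact ⟨he, hcv'', hcv', hv'', hv'⟩
      · simp only [hfe, if_false, add_zero] at hf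
        exact hD f hf
    · intro w
      have hsingle : bd (fun f => if f = e then (1 : ZMod 2) else 0) w
          = ind (w = ea e) + ind (w = eb e) := by
        obtain ⟨ex, ey, b⟩ := e
        obtain ⟨wx, wy⟩ := w
        cases b with
        | false =>
          simp only [bd, ea_mk, eb_false, Prod.mk.injEq, and_true, reduceCtorEq, and_false,
            if_false, add_zero, ind]
          have e1 : (wx - 1 = ex ∧ wy = ey) ↔ (wx = ex + 1 ∧ wy = ey) := by omega
          by_cases h1 : wx = ex ∧ wy = ey <;> by_cases h2 : wx = ex + 1 ∧ wy = ey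
          · omega
          · simp [h1, e1, h2]
          · simp [h1, e1, h2]
          · simp [h1, e1, h2]
        | true =>
          simp only [bd, ea_mk, eb_true, Prod.mk.injEq, and_true, reduceCtorEq, and_false,
            if_false, zero_add, ind]
          have e1 : (wx = ex ∧ wy - 1 = ey) ↔ (wx = ex ∧ wy = ey + 1) := by omega
          by_cases h1 : wx = ex ∧ wy = ey <;> by_cases h2 : wx = ex ∧ wy = ey + 1
          · omega
          · simp [h1, e1, h2]
          · simp [h1, e1, h2]
          · simp [h1, e1, h2]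
      have hadd : bd (fun f => D f + if f = e then 1 else 0) w
          = bd D w + bd (fun f => if f = e then (1 : ZMod 2) else 0) w := by
        simp only [bd]; ring
      rw [hadd, hb w, hsingle]
      rcases hh with ⟨h3, h4⟩ | ⟨h3, h4⟩
      · rw [h3, h4]
        have := add_self2 (ind (w = v'))
        linear_combination this
      · rw [h3, h4]
        have := add_self2 (ind (w = v'))
        linear_combination this

/-- The chain of a bottom-top crossing: data used in both crossing lemmas. -/
theorem vc_pot {a b c d : ℤ} (hcd : c < d) {ω : Set Ed} {x x' : ℤ}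
    (hx : a ≤ x ∧ x ≤ b) (h : Conn ω (Rect a b c d) (x, c) (x', d)) :
    ∃ D : Ed → ZMod 2, (∀ e, D e ≠ 0 → e ∈ ω ∧ Conn ω (Rect a b c d) (x, c) (ea e) ∧
        Conn ω (Rect a b c d) (x, c) (eb e) ∧ ea e ∈ Rect a b c d ∧ eb e ∈ Rect a b c d) ∧
      (∀ i, a - 1 ≤ i → i ≤ b → ∀ j, c < j → j < d →
        pot a D i j = pot a D i (j - 1) + D (i, j, false)) ∧
      ∀ j, c ≤ j → j < d → pot a D b j = 1 := by
  obtain ⟨D, hD, hb⟩ := h.chain
  have hev : ∀ x₁ y, a ≤ x₁ → x₁ ≤ b → c < y → y < d → bd D (x₁, y) = 0 := by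
    intro x₁ y _ _ h3 h4
    rw [hb, ind_neg (by simp only [Prod.mk.injEq]; omega),
      ind_neg (by simp only [Prod.mk.injEq]; omega), add_zero]
  have hz : ∀ e : Ed, ea e ∉ Rect a b c d ∨ eb e ∉ Rect a b c d → D e = 0 := by
    intro e he
    by_contra hne
    obtain ⟨_, _, _, h1, h2⟩ := hD e hne
    rcases he with he | he
    · exact he h1
    · exact he h2
  have hl : ∀ y, c < y → y < d → D (a - 1, y, false) = 0 := by
    intro y _ _
    refine hz _ (Or.inl ?_)
    simp only [ea_mk, mem_Rect]
    omega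
  have hpot := pot_hor D hev hl
  refine ⟨D, hD, hpot, ?_⟩
  intro j hj
  induction j, hj using Int.leInduction with
  | base =>
    intro _
    -- the sum over the bottom row
    have key : ∀ i, a - 1 ≤ i → i ≤ b → pot a D i c = D (i, c, false) + ind (x ≤ i) := by
      intro i hi
      induction i, hi using Int.leInduction with
      | base =>
        intro _
        rw [pot_lt D (by omega), ind_neg (by omega), add_zero]
        refine (hz _ (Or.inl ?_)).symm
        simp only [ea_mk, mem_Rect]
        omega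
      | succ i hi ih =>
        intro hib
        rw [pot_succ D (show a ≤ i + 1 by omega)]
        simp only [add_sub_cancel_right]
        rw [ih (by omega)]
        have h1 := hb (i + 1, c)
        unfold bd at h1
        simp only [add_sub_cancel_right] at h1
        rw [hz (i + 1, c - 1, true) (Or.inl (by
          simp only [ea_mk, mem_Rect]; omega))] at h1
        rw [ind_neg (P := ((i + 1, c) : ℤ × ℤ) = (x', d)) (by simp only [Prod.mk.injEq]; omega)]
          at h1
        have e1 := add_self2 (D (i + 1, c, false))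
        have e3 := add_self2 (D (i, c, false))
        have e2 : ind (x ≤ i + 1) = ind (x ≤ i) + ind (((i + 1, c) : ℤ × ℤ) = (x, c)) := by
          rcases lt_trichotomy x (i + 1) with h2 | h2 | h2
          · rw [ind_pos (by omega), ind_pos (by omega),
              ind_neg (by simp only [Prod.mk.injEq]; omega), add_zero]
          · rw [ind_pos (P := x ≤ i + 1) (by omega), ind_neg (P := x ≤ i) (by omega),
              ind_pos (P := ((i + 1, c) : ℤ × ℤ) = (x, c)) (by rw [h2]), zero_add]
          · rw [ind_neg (by omega), ind_neg (by omega),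
              ind_neg (by simp only [Prod.mk.injEq]; omega), add_zero]
        rw [e2]
        linear_combination h1 - e1
    rw [key b (by omega) le_rfl, ind_pos hx.2, hz _ (Or.inr ?_), zero_add]
    simp only [eb_false, mem_Rect]
    omega
  | succ j hj ih =>
    intro hjd
    rw [hpot b (by omega) le_rfl (j + 1) (by omega) hjd]
    simp only [add_sub_cancel_right]
    rw [ih (by omega), hz _ (Or.inr ?_), add_zero]
    simp only [eb_false, mem_Rect]
    omega

/-- A left-right path and a bottom-top path of a rectangle meet: the left-right path meets the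
set of vertices joined to the bottom-top path. -/
theorem hc_vc_meet {a b c d : ℤ} (hcd : c < d) {ω ω' : Set Ed} {x x' y y' : ℤ}
    (hx : a ≤ x ∧ x ≤ b) (h : Conn ω (Rect a b c d) (x, c) (x', d))
    (hy : c ≤ y ∧ y ≤ d) (hab : a ≤ b) (h' : Conn ω' (Rect a b c d) (a, y) (b, y')) :
    ∃ w, Conn ω' (Rect a b c d) (a, y) w ∧ Conn ω (Rect a b c d) (x, c) w := by
  obtain ⟨D, hD, hpot, hR⟩ := vc_pot hcd hx h
  by_contra hcon
  push Not at hcon
  -- edges at a vertex of the horizontal path are not in the chain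
  have hz : ∀ w, Conn ω' (Rect a b c d) (a, y) w → ∀ e : Ed, ea e = w ∨ eb e = w → D e = 0 := by
    intro w hw e he
    by_contra hne
    obtain ⟨_, h1, h2, _⟩ := hD e hne
    rcases he with he | he
    · exact hcon w hw (he ▸ h1)
    · exact hcon w hw (he ▸ h2)
  have hmem : ∀ w, Conn ω' (Rect a b c d) (a, y) w → w ∈ Rect a b c d := fun w hw =>
    hw.mem ⟨le_rfl, hab, hy.1, hy.2⟩
  -- the vertical edge used at height `min y (d - 1)`
  have hv : ∀ w : ℤ × ℤ, Conn ω' (Rect a b c d) (a, y) w →
      D (w.1, min w.2 (d - 1), true) = 0 := by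
    intro w hw
    have hwm := hmem w hw
    simp only [mem_Rect] at hwm
    refine hz w hw _ ?_
    rcases le_or_gt w.2 (d - 1) with h1 | h1
    · left; rw [min_eq_left h1]; rfl
    · right
      rw [min_eq_right h1.le, eb_true]
      ext
      · rfl
      · change d - 1 + 1 = w.2; omega
  have hconst : ∀ w : ℤ × ℤ, Conn ω' (Rect a b c d) (a, y) w →
      pot a D w.1 (min w.2 (d - 1)) = 0 := by
    intro w hw
    have hw0 := hw
    unfold Conn at hw
    induction hw with
    | refl =>
      rw [pot_succ D le_rfl, pot_lt D (by simp), hv _ hw0, add_zero]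
    | @tail u w h1 h2 ih =>
      have hu : Conn ω' (Rect a b c d) (a, y) u := h1
      have ihu := ih hu
      have hum := hmem u hu
      have hwm := hmem w hw0
      simp only [mem_Rect] at hum hwm
      obtain ⟨_, _, ⟨ex, ey, eb'⟩, _, hh⟩ := h2
      cases eb' with
      | false =>
        simp only [ea_mk, eb_false] at hh
        rcases hh with ⟨h3, h4⟩ | ⟨h3, h4⟩
        · subst h3; subst h4
          rw [pot_succ D (by simp only at hwm ⊢; omega)]
          simp only [add_sub_cancel_right]
          rw [hv _ hw0, add_zero]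
          exact ihu
        · subst h3; subst h4
          rw [pot_succ D (by simp only at hum ⊢; omega)] at ihu
          simp only [add_sub_cancel_right] at ihu
          rw [hv _ hu, add_zero] at ihu
          exact ihu
      | true =>
        simp only [ea_mk, eb_true] at hh
        rcases hh with ⟨h3, h4⟩ | ⟨h3, h4⟩
        · subst h3; subst h4
          simp only at ihu hwm hum ⊢
          rcases le_or_gt (ey + 1) (d - 1) with h5 | h5
          · rw [min_eq_left h5, hpot ex (by omega) (by omega) (ey + 1) (by omega) (by omega)]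
            simp only [add_sub_cancel_right]
            rw [min_eq_left (by omega)] at ihu
            rw [ihu, zero_add]
            exact hz _ hw0 _ (Or.inl rfl)
          · rw [min_eq_right (by omega)]
            rwa [min_eq_left (by omega), show ey = d - 1 by omega] at ihu
        · subst h3; subst h4
          simp only at ihu hwm hum ⊢
          rcases le_or_gt (ey + 1) (d - 1) with h5 | h5
          · rw [min_eq_left h5, hpot ex (by omega) (by omega) (ey + 1) (by omega) (by omega)]
              at ihu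
            simp only [add_sub_cancel_right] at ihu
            rw [hz _ hu (ex, ey + 1, false) (Or.inl rfl), add_zero] at ihu
            rwa [min_eq_left (by omega)]
          · rw [min_eq_right (by omega)] at ihu
            rwa [min_eq_left (by omega), show ey = d - 1 by omega]
  have h1 := hconst _ h'
  have h2 := (hmem _ h')
  simp only [mem_Rect] at h1 h2
  rw [hR _ (by omega) (by omega)] at h1
  exact one_ne_zero h1

end Pool.Agent.MP_6bd702.H23
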