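import Pool.Agent.Lib.MP_6bd702_pr.Basic
import Pool.Agent.Lib.MP_6bd702_pr_h23.Explore

/-!
Percolation probabilities in finite windows.
-/

set_option autoImplicit false

namespace Pool.Agent.MP_6bd702.H23

open Finset

/-- The set of edges given by a configuration of the window. -/
def cfg (W : Finset Ed) (s : Finset W) : Set Ed := {e | ∃ h : e ∈ W, (⟨e, h⟩ : W) ∈ s}

theorem mem_cfg {W : Finset Ed} {s : Finset W} {e : Ed} :
    e ∈ cfg W s ↔ ∃ h : e ∈ W, (⟨e, h⟩ : W) ∈ s := Iff.rfl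

theorem cfg_sub {W : Finset Ed} {s : Finset W} : cfg W s ⊆ W := fun _ h => h.1

theorem cfg_mono {W : Finset Ed} {s t : Finset W} (h : s ≤ t) : cfg W s ⊆ cfg W t :=
  fun _ ⟨h1, h2⟩ => ⟨h1, h h2⟩

/-- The probability of the event `A` when the edges of `W` are open independently with probability
`1/2` and the other edges are closed. -/
noncomputable def pr (W : Finset Ed) (A : Set (Set Ed)) : ℝ := Pr {s : Finset W | cfg W s ∈ A}

theorem pr_nonneg (W : Finset Ed) (A : Set (Set Ed)) : 0 ≤ pr W A := Pr_nonneg _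

theorem pr_le_one (W : Finset Ed) (A : Set (Set Ed)) : pr W A ≤ 1 := Pr_le_one _

theorem pr_mono' {W : Finset Ed} {A B : Set (Set Ed)} (h : ∀ ω ⊆ (W : Set Ed), ω ∈ A → ω ∈ B) :
    pr W A ≤ pr W B := Pr_mono fun _ hs => h _ cfg_sub hs

theorem pr_mono {W : Finset Ed} {A B : Set (Set Ed)} (h : A ⊆ B) : pr W A ≤ pr W B :=
  pr_mono' fun _ _ h1 => h h1

theorem pr_congr {W : Finset Ed} {A B : Set (Set Ed)}
    (h : ∀ ω ⊆ (W : Set Ed), ω ∈ A ↔ ω ∈ B) : pr W A = pr W B :=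
  le_antisymm (pr_mono' fun ω h1 h2 => (h ω h1).1 h2) (pr_mono' fun ω h1 h2 => (h ω h1).2 h2)

theorem pr_union_le (W : Finset Ed) (A B : Set (Set Ed)) : pr W (A ∪ B) ≤ pr W A + pr W B :=
  Pr_union_le _ _

theorem pr_univ (W : Finset Ed) : pr W Set.univ = 1 := by
  unfold pr
  rw [← Pr_univ (α := W)]
  congr 1

theorem pr_compl (W : Finset Ed) (A : Set (Set Ed)) : pr W Aᶜ = 1 - pr W A := Pr_compl _

theorem harris_up {W : Finset Ed} {A B : Set (Set Ed)} (hA : IsUpperSet A) (hB : IsUpperSet B) :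
    pr W A * pr W B ≤ pr W (A ∩ B) := by
  refine harris (A := {s : Finset W | cfg W s ∈ A}) (B := {s : Finset W | cfg W s ∈ B}) ?_ ?_
  · intro s t hst hs
    exact hA (cfg_mono hst) hs
  · intro s t hst hs
    exact hB (cfg_mono hst) hs

theorem harris_lo {W : Finset Ed} {A B : Set (Set Ed)} (hA : IsLowerSet A) (hB : IsLowerSet B) :
    pr W A * pr W B ≤ pr W (A ∩ B) := by
  refine harris_lower (A := {s : Finset W | cfg W s ∈ A}) (B := {s : Finset W | cfg W s ∈ B}) ?_ ?_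
  · intro s t hst hs
    exact hA (cfg_mono hst) hs
  · intro s t hst hs
    exact hB (cfg_mono hst) hs

/-- Harris for a finite intersection of decreasing events. -/
theorem harris_lo_list {W : Finset Ed} {ι : Type} [DecidableEq ι] (s : Finset ι) (A : ι → Set (Set Ed))
    {c : ℝ} (hc : 0 ≤ c) (hA : ∀ i ∈ s, IsLowerSet (A i)) (hP : ∀ i ∈ s, c ≤ pr W (A i)) :
    c ^ s.card ≤ pr W (⋂ i ∈ s, A i) ∧ IsLowerSet (⋂ i ∈ s, A i) := by
  induction s using Finset.induction_on with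
  | empty => simp [pr_univ, isLowerSet_univ]
  | insert a s ha ih =>
    obtain ⟨h1, h2⟩ := ih (fun i hi => hA i (Finset.mem_insert_of_mem hi))
      (fun i hi => hP i (Finset.mem_insert_of_mem hi))
    have hAa := hA a (Finset.mem_insert_self a s)
    rw [Finset.set_biInter_insert, Finset.card_insert_of_notMem ha]
    refine ⟨?_, hAa.inter h2⟩
    calc c ^ (s.card + 1) = c * c ^ s.card := by ring
      _ ≤ pr W (A a) * pr W (⋂ i ∈ s, A i) :=
        mul_le_mul (hP a (Finset.mem_insert_self a s)) h1 (by positivity) (pr_nonneg _ _)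
      _ ≤ _ := harris_lo hAa h2

/-- Transport along an injection of edges. -/
theorem pr_pull {W W' : Finset Ed} (σ : Ed → Ed) (hinj : Function.Injective σ)
    (hW : ∀ e ∈ W, σ e ∈ W') (A : Set (Set Ed)) :
    pr W' {ω | σ ⁻¹' ω ∩ W ∈ A} = pr W A := by
  unfold pr
  let ι : W → W' := fun e => ⟨σ e.1, hW _ e.2⟩
  have hι : Function.Injective ι := by
    intro x y h
    have := congrArg Subtype.val h
    exact Subtype.ext (hinj this)
  rw [← Pr_restr hι]
  congr 1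
  ext s
  have : σ ⁻¹' (cfg W' s) ∩ W = cfg W (restr ι s) := by
    ext e
    simp only [Set.mem_inter_iff, Set.mem_preimage, mem_cfg, mem_coe, mem_restr]
    constructor
    · rintro ⟨⟨_, h2⟩, h3⟩
      exact ⟨h3, h2⟩
    · rintro ⟨h3, h2⟩
      exact ⟨⟨hW _ h3, h2⟩, h3⟩
  simp only [Set.mem_preimage]
  change σ ⁻¹' (cfg W' s) ∩ W ∈ A ↔ cfg W (restr ι s) ∈ A
  rw [this]

/-- The event depends only on the edges of `W`. -/
def Loc (W : Finset Ed) (A : Set (Set Ed)) : Prop := ∀ ω, ω ∈ A ↔ ω ∩ W ∈ A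

theorem pr_window {W W' : Finset Ed} (h : W ⊆ W') {A : Set (Set Ed)} (hA : Loc W A) :
    pr W' A = pr W A := by
  rw [← pr_pull (W := W) (W' := W') id Function.injective_id (fun e he => h he) A]
  refine pr_congr fun ω _ => ?_
  exact hA ω

/-- Exchange of open and closed. -/
theorem pr_flip (W : Finset Ed) (A : Set (Set Ed)) :
    pr W {ω | (W : Set Ed) \ ω ∈ A} = pr W A := by
  unfold pr
  rw [← Pr_equiv (complEquiv (α := W)) {s | cfg W s ∈ A}]
  congr 1
  ext s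
  have : (W : Set Ed) \ cfg W s = cfg W (complEquiv s) := by
    ext e
    simp only [Set.mem_sdiff, mem_coe, mem_cfg, not_exists, complEquiv, Equiv.coe_fn_mk,
      mem_compl]
    constructor
    · rintro ⟨h1, h2⟩; exact ⟨h1, h2 h1⟩
    · rintro ⟨h1, h2⟩; exact ⟨h1, fun _ => h2⟩
  simp only [Set.mem_preimage]
  change (W : Set Ed) \ cfg W s ∈ A ↔ cfg W (complEquiv s) ∈ A
  rw [this]

/-- Resampling off a stopping set. -/
theorem pr_mix {W : Finset Ed} (S : Set Ed → Set Ed)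
    (hS : ∀ ω ⊆ (W : Set Ed), ∀ ω' ⊆ (W : Set Ed), (∀ e ∈ S ω, e ∈ W → (e ∈ ω ↔ e ∈ ω')) →
      S ω' = S ω)
    (A : Set (Set Ed)) (B : Set Ed → Set (Set Ed)) (X : Set (Set Ed)) {c : ℝ}
    (hB : ∀ ω ∈ A, ω ⊆ (W : Set Ed) → c ≤ pr W (B ω))
    (hX : ∀ ω ∈ A, ω ⊆ (W : Set Ed) → ∀ ξ ∈ B ω, ξ ⊆ (W : Set Ed) →
      (ω ∩ S ω) ∪ (ξ \ S ω) ∈ X) :
    c * pr W A ≤ pr W X := by
  classical
  unfold pr
  let T : Finset W → Finset W := fun s => univ.filter fun e => (e : Ed) ∈ S (cfg W s)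
  have hmemT : ∀ s (e : W), e ∈ T s ↔ (e : Ed) ∈ S (cfg W s) := fun s e => by simp [T]
  have hT : IsStop T := by
    intro s t h
    have h1 : S (cfg W t) = S (cfg W s) := by
      refine hS _ cfg_sub _ cfg_sub fun e he heW => ?_
      have h2 := h ⟨e, heW⟩ ((hmemT s _).2 he)
      simp only [mem_cfg]
      constructor
      · rintro ⟨_, h3⟩; exact ⟨heW, h2.1 h3⟩
      · rintro ⟨_, h3⟩; exact ⟨heW, h2.2 h3⟩
    simp only [T, h1]
  refine Pr_mix_ge T hT {s : Finset W | cfg W s ∈ A} (fun s => {t : Finset W | cfg W t ∈ B (cfg W s)})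
    {s : Finset W | cfg W s ∈ X} ?_ ?_
  · intro s hs
    exact hB _ hs cfg_sub
  · intro s hs t ht
    have h1 := hX _ hs cfg_sub _ ht cfg_sub
    have h2 : cfg W (mix T s t) = (cfg W s ∩ S (cfg W s)) ∪ (cfg W t \ S (cfg W s)) := by
      ext e
      simp only [Set.mem_union, Set.mem_inter_iff, Set.mem_sdiff, mem_cfg]
      by_cases heW : e ∈ W
      · by_cases heS : e ∈ S (cfg W s)
        · have := mem_mix_of_mem (S := T) (ω := s) (ξ := t) (e := ⟨e, heW⟩) ((hmemT s _).2 heS)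
          simp [heW, heS, this]
        · have := mem_mix_of_notMem (S := T) (ω := s) (ξ := t) (e := ⟨e, heW⟩)
            (fun h => heS ((hmemT s _).1 h))
          simp [heW, heS, this]
      · simp [heW]
    change cfg W (mix T s t) ∈ X
    rw [h2]
    exact h1

/-! ### Crossing probabilities -/

/-- The edges of a rectangle. -/
noncomputable def EW (a b c d : ℤ) : Finset Ed :=
  (Icc a b ×ˢ Icc c d ×ˢ (univ : Finset Bool)).filter fun e =>
    (eb e).1 ≤ b ∧ (eb e).2 ≤ d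

theorem mem_EW {a b c d : ℤ} {e : Ed} :
    e ∈ EW a b c d ↔ ea e ∈ Rect a b c d ∧ eb e ∈ Rect a b c d := by
  obtain ⟨x, y, t⟩ := e
  simp only [EW, mem_filter, mem_product, mem_Icc, mem_univ, and_true, mem_Rect, ea_mk]
  cases t
  · simp only [eb_false]; omega
  · simp only [eb_true]; omega

theorem Step_inter {ω : Set Ed} {a b c d a' b' c' d' : ℤ} {u v : ℤ × ℤ}
    (hR : Rect a' b' c' d' ⊆ Rect a b c d) :
    Step ω (Rect a' b' c' d') u v ↔ Step (ω ∩ EW a b c d) (Rect a' b' c' d') u v := by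
  constructor
  · rintro ⟨hu, hv, e, he, hh⟩
    refine ⟨hu, hv, e, ⟨he, ?_⟩, hh⟩
    rw [mem_coe, mem_EW]
    rcases hh with ⟨h1, h2⟩ | ⟨h1, h2⟩
    · rw [h1, h2]; exact ⟨hR hu, hR hv⟩
    · rw [h1, h2]; exact ⟨hR hv, hR hu⟩
  · intro h
    exact h.mono Set.inter_subset_left le_rfl

theorem Conn_inter {ω : Set Ed} {a b c d a' b' c' d' : ℤ} {u v : ℤ × ℤ}
    (hR : Rect a' b' c' d' ⊆ Rect a b c d) :
    Conn ω (Rect a' b' c' d') u v ↔ Conn (ω ∩ EW a b c d) (Rect a' b' c' d') u v := by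
  have : Step ω (Rect a' b' c' d') = Step (ω ∩ EW a b c d) (Rect a' b' c' d') := by
    ext u v; exact Step_inter hR
  unfold Conn
  rw [this]

theorem HC_loc (a b c d : ℤ) : Loc (EW a b c d) {ω | HC a b c d ω} := by
  intro ω
  constructor
  · rintro ⟨y, y', h1, h2, h3, h4, h5⟩
    exact ⟨y, y', h1, h2, h3, h4, (Conn_inter (Set.Subset.refl _)).1 h5⟩
  · rintro ⟨y, y', h1, h2, h3, h4, h5⟩
    exact ⟨y, y', h1, h2, h3, h4, (Conn_inter (Set.Subset.refl _)).2 h5⟩

theorem VC_loc (a b c d : ℤ) : Loc (EW a b c d) {ω | VC a b c d ω} := by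
  intro ω
  constructor
  · rintro ⟨y, y', h1, h2, h3, h4, h5⟩
    exact ⟨y, y', h1, h2, h3, h4, (Conn_inter (Set.Subset.refl _)).1 h5⟩
  · rintro ⟨y, y', h1, h2, h3, h4, h5⟩
    exact ⟨y, y', h1, h2, h3, h4, (Conn_inter (Set.Subset.refl _)).2 h5⟩

theorem HC_mono (a b c d : ℤ) : IsUpperSet {ω | HC a b c d ω} := by
  rintro ω ω' h ⟨y, y', h1, h2, h3, h4, h5⟩
  exact ⟨y, y', h1, h2, h3, h4, h5.mono h le_rfl⟩

theorem VC_mono (a b c d : ℤ) : IsUpperSet {ω | VC a b c d ω} := by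
  rintro ω ω' h ⟨y, y', h1, h2, h3, h4, h5⟩
  exact ⟨y, y', h1, h2, h3, h4, h5.mono h le_rfl⟩

/-- A map of vertices and edges which respects ends. -/
structure LMap where
  v : ℤ × ℤ → ℤ × ℤ
  e : Ed → Ed
  inj : Function.Injective e
  ends : ∀ f, (ea (e f) = v (ea f) ∧ eb (e f) = v (eb f)) ∨ (ea (e f) = v (eb f) ∧ eb (e f) = v (ea f))

theorem LMap.conn (L : LMap) {ω : Set Ed} {R R' : Set (ℤ × ℤ)} (hR : ∀ w ∈ R, L.v w ∈ R')
    {u w : ℤ × ℤ} (h : Conn (L.e ⁻¹' ω) R u w) : Conn ω R' (L.v u) (L.v w) := by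
  unfold Conn at *
  induction h with
  | refl => exact .refl
  | tail _ h2 ih =>
    obtain ⟨hu, hw, f, hf, hh⟩ := h2
    refine ih.tail ⟨hR _ hu, hR _ hw, L.e f, hf, ?_⟩
    rcases L.ends f with ⟨h3, h4⟩ | ⟨h3, h4⟩ <;> rcases hh with ⟨h5, h6⟩ | ⟨h5, h6⟩ <;>
      rw [h3, h4, h5, h6] <;> simp

/-- Translations. -/
def shiftL (s t : ℤ) : LMap where
  v w := (w.1 + s, w.2 + t)
  e f := (f.1 + s, f.2.1 + t, f.2.2)
  inj := by
    rintro ⟨x, y, b⟩ ⟨x', y', b'⟩ h
    simp only [Prod.mk.injEq] at h ⊢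
    exact ⟨by omega, by omega, h.2.2⟩
  ends := by
    rintro ⟨x, y, b⟩
    cases b
    · left; simp only [ea_mk, eb_false, Prod.mk.injEq]; refine ⟨trivial, by omega, trivial⟩
    · left; simp only [ea_mk, eb_true, Prod.mk.injEq]; refine ⟨trivial, trivial, by omega⟩

/-- The transposition. -/
def trL : LMap where
  v w := (w.2, w.1)
  e f := (f.2.1, f.1, !f.2.2)
  inj := by
    rintro ⟨x, y, b⟩ ⟨x', y', b'⟩ h
    simp only [Prod.mk.injEq] at h ⊢
    refine ⟨h.2.1, h.1, ?_⟩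
    revert h
    cases b <;> cases b' <;> simp
  ends := by
    rintro ⟨x, y, b⟩
    cases b
    · left; simp
    · left; simp

/-- The reflection `x ↦ s - x`. -/
def rxL (s : ℤ) : LMap where
  v w := (s - w.1, w.2)
  e f := if f.2.2 then (s - f.1, f.2.1, true) else (s - f.1 - 1, f.2.1, false)
  inj := by
    rintro ⟨x, y, b⟩ ⟨x', y', b'⟩ h
    cases b <;> cases b' <;> simp at h ⊢ <;> omega
  ends := by
    rintro ⟨x, y, b⟩
    cases b
    · right; simp only [Bool.false_eq_true, if_false, ea_mk, eb_false, Prod.mk.injEq]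
      refine ⟨⟨by omega, trivial⟩, by omega, trivial⟩
    · left; simp

/-- The reflection `y ↦ s - y`. -/
def ryL (s : ℤ) : LMap where
  v w := (w.1, s - w.2)
  e f := if f.2.2 then (f.1, s - f.2.1 - 1, true) else (f.1, s - f.2.1, false)
  inj := by
    rintro ⟨x, y, b⟩ ⟨x', y', b'⟩ h
    cases b <;> cases b' <;> simp at h ⊢ <;> omega
  ends := by
    rintro ⟨x, y, b⟩
    cases b
    · left; simp
    · right; simp only [if_true, ea_mk, eb_true, Prod.mk.injEq]
      refine ⟨⟨trivial, by omega⟩, trivial, by omega⟩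

/-- Comparison of probabilities under a lattice map. -/
theorem pr_le_map (L : LMap) {W W' : Finset Ed} (hW : ∀ e ∈ W, L.e e ∈ W')
    {A B : Set (Set Ed)} (h : ∀ ω : Set Ed, (L.e ⁻¹' ω) ∩ W ∈ A → ω ∈ B) :
    pr W A ≤ pr W' B := by
  rw [← pr_pull L.e L.inj hW A]
  exact pr_mono fun ω hω => h ω hω

end Pool.Agent.MP_6bd702.H23
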