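import Pool.Agent.Lib.MP_6bd702_pr_h23.Cross

/-!
The box crossing property.
-/

set_option autoImplicit false

namespace Pool.Agent.MP_6bd702.H23

open Finset

/-! ### The event of Bollobas and Riordan -/

/-- A bottom-top crossing of the square `[0, n]²` which is joined in `[0, m] × [0, 2n]` to the
right side. -/
def XR (n m : ℤ) : Set (Set Ed) :=
  {ω | ∃ x x' y, 0 ≤ x ∧ x ≤ n ∧ 0 ≤ x' ∧ x' ≤ n ∧ 0 ≤ y ∧ y ≤ 2 * n ∧
    Conn ω (Rect 0 n 0 n) (x, 0) (x', n) ∧ Conn ω (Rect 0 m 0 (2 * n)) (x, 0) (m, y)}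

theorem XR_upper (n m : ℤ) : IsUpperSet (XR n m) := by
  rintro ω ω' h ⟨x, x', y, h1, h2, h3, h4, h5, h6, h7, h8⟩
  exact ⟨x, x', y, h1, h2, h3, h4, h5, h6, h7.mono h le_rfl, h8.mono h le_rfl⟩

/-- The event that a lower contact point is joined to the right side off the explored region. -/
def Blow (n m : ℤ) (U : Set (ℤ × ℤ)) : Set (Set Ed) :=
  {ξ | ∃ v ∈ Rect 0 m 0 (2 * n), Touch U v ∧ ∃ y,
    Conn (ξ ∩ Av n U) (Rect 0 m 0 (2 * n)) v (m, y)}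

/-- The mirror image. -/
def Bup (n m : ℤ) (U : Set (ℤ × ℤ)) : Set (Set Ed) :=
  {ξ | ∃ v ∈ Rect 0 m 0 (2 * n), Touch U (v.1, 2 * n - v.2) ∧ ∃ y,
    Conn (ξ ∩ Av n U) (Rect 0 m 0 (2 * n)) v (m, y)}

theorem Av_ryL {n : ℤ} {U : Set (ℤ × ℤ)} {e : Ed} (he : e ∈ Av n U) :
    (ryL (2 * n)).e e ∈ Av n U := by
  obtain ⟨x, y, t⟩ := e
  obtain ⟨h1, h2, h3, h4⟩ := he
  cases t with
  | true =>
    simp only [f1_true, f2_mk, rf] at h1 h2 h3 h4
    simp only [Av, ryL, if_true, f1_true, f2_mk, rf, Set.mem_setOf_eq]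
    refine ⟨?_, ?_, ?_, ?_⟩
    · convert h3 using 2; ring_nf
    · convert h4 using 2; ring_nf
    · convert h1 using 2; ring_nf
    · convert h2 using 2; ring_nf
  | false =>
    simp only [f1_false, f2_mk, rf] at h1 h2 h3 h4
    simp only [Av, ryL, Bool.false_eq_true, if_false, f1_false, f2_mk, rf, Set.mem_setOf_eq]
    refine ⟨?_, ?_, ?_, ?_⟩
    · convert h4 using 2; ring_nf
    · convert h3 using 2; ring_nf
    · convert h2 using 2; ring_nf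
    · convert h1 using 2; ring_nf

theorem pr_Bup_le (n m : ℤ) (U : Set (ℤ × ℤ)) :
    pr (EW 0 m 0 (2 * n)) (Bup n m U) ≤ pr (EW 0 m 0 (2 * n)) (Blow n m U) := by
  refine pr_le_map (ryL (2 * n)) ?_ ?_
  · intro e he
    rw [mem_EW] at he ⊢
    obtain ⟨x, y, t⟩ := e
    cases t <;> simp [mem_Rect, ryL] at he ⊢ <;> omega
  · rintro ω ⟨v, hv, ht, y, h⟩
    refine ⟨(ryL (2 * n)).v v, ?_, ht, 2 * n - y, ?_⟩
    · simp only [mem_Rect, ryL] at hv ⊢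
      omega
    · refine LMap.conn (ryL (2 * n)) (R := Rect 0 m 0 (2 * n)) ?_ (h.mono ?_ le_rfl)
      · intro w hw
        simp only [mem_Rect, ryL] at hw ⊢
        omega
      · rintro e ⟨⟨h1, _⟩, h2⟩
        exact ⟨h1, Av_ryL h2⟩

/-- The ends of an edge. -/
theorem ends_cases {e : Ed} {u u' : ℤ × ℤ}
    (hh : (ea e = u ∧ eb e = u') ∨ (ea e = u' ∧ eb e = u)) :
    (e.2.2 = true ∧ u'.1 = e.1 ∧ (u'.2 = e.2.1 ∨ u'.2 = e.2.1 + 1)) ∨
      (e.2.2 = false ∧ u'.2 = e.2.1 ∧ (u'.1 = e.1 ∨ u'.1 = e.1 + 1)) := by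
  obtain ⟨x, y, t⟩ := e
  cases t with
  | true =>
    simp only [ea_mk, eb_true] at hh
    rcases hh with ⟨h1, h2⟩ | ⟨h1, h2⟩
    · left; rw [← h2]; simp
    · left; rw [← h1]; simp
  | false =>
    simp only [ea_mk, eb_false] at hh
    rcases hh with ⟨h1, h2⟩ | ⟨h1, h2⟩
    · right; rw [← h2]; simp
    · right; rw [← h1]; simp

/-- A face adjacent to an edge touches its ends. -/
theorem touch_of_face {U : Set (ℤ × ℤ)} {e : Ed} {u u' : ℤ × ℤ}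
    (hh : (ea e = u ∧ eb e = u') ∨ (ea e = u' ∧ eb e = u)) (h : f1 e ∈ U ∨ f2 e ∈ U) :
    Touch U u' := by
  have h0 := ends_cases hh
  obtain ⟨x, y, t⟩ := e
  cases t with
  | true =>
    simp only [f1_true, f2_mk] at h
    simp only [true_and, reduceCtorEq, false_and, or_false] at h0
    rcases h with h | h
    · exact ⟨_, _, by omega, by omega, h⟩
    · exact ⟨_, _, by omega, by omega, h⟩
  | false =>
    simp only [f1_false, f2_mk] at h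
    simp only [true_and, reduceCtorEq, false_and, false_or] at h0
    rcases h with h | h
    · exact ⟨_, _, by omega, by omega, h⟩
    · exact ⟨_, _, by omega, by omega, h⟩

theorem touch_of_face' {n : ℤ} {U : Set (ℤ × ℤ)} {e : Ed} {u u' : ℤ × ℤ}
    (hh : (ea e = u ∧ eb e = u') ∨ (ea e = u' ∧ eb e = u)) (h : rf n (f1 e) ∈ U ∨ rf n (f2 e) ∈ U) :
    Touch U (u'.1, 2 * n - u'.2) := by
  have h0 := ends_cases hh
  obtain ⟨x, y, t⟩ := e
  cases t with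
  | true =>
    simp only [f1_true, f2_mk, rf] at h
    simp only [true_and, reduceCtorEq, false_and, or_false] at h0
    rcases h with h | h
    · exact ⟨_, _, by simp only; omega, by simp only; omega, h⟩
    · exact ⟨_, _, by simp only; omega, by simp only; omega, h⟩
  | false =>
    simp only [f1_false, f2_mk, rf] at h
    simp only [true_and, reduceCtorEq, false_and, false_or] at h0
    rcases h with h | h
    · exact ⟨_, _, by simp only; omega, by simp only; omega, h⟩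
    · exact ⟨_, _, by simp only; omega, by simp only; omega, h⟩

/-- Last contact. -/
theorem last_contact {n m : ℤ} {U : Set (ℤ × ℤ)} {ξ : Set Ed} {u z : ℤ × ℤ}
    (hz : z ∈ Rect 0 m 0 (2 * n))
    (h : Conn ξ (Rect 0 m 0 (2 * n)) u z) :
    Conn (ξ ∩ Av n U) (Rect 0 m 0 (2 * n)) u z ∨
      ∃ v ∈ Rect 0 m 0 (2 * n), (Touch U v ∨ Touch U (v.1, 2 * n - v.2)) ∧
        Conn (ξ ∩ Av n U) (Rect 0 m 0 (2 * n)) v z := by
  unfold Conn at h
  induction h using Relation.ReflTransGen.head_induction_on with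
  | refl => exact Or.inl .refl
  | @head u u' h1 _ ih =>
    rcases ih with ih | ih
    · obtain ⟨hu, hu', e, he, hh⟩ := h1
      by_cases hA : e ∈ Av n U
      · exact Or.inl (Relation.ReflTransGen.head ⟨hu, hu', e, ⟨he, hA⟩, hh⟩ ih)
      · right
        refine ⟨u', hu', ?_, ih⟩
        have h2 : (f1 e ∈ U ∨ f2 e ∈ U) ∨ (rf n (f1 e) ∈ U ∨ rf n (f2 e) ∈ U) := by
          by_contra hcon
          push Not at hcon
          exact hA ⟨hcon.1.1, hcon.1.2, hcon.2.1, hcon.2.2⟩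
        rcases h2 with h2 | h2
        · exact Or.inl (touch_of_face hh h2)
        · exact Or.inr (touch_of_face' hh h2)
    · exact Or.inr ih

theorem hc_sub_B {n m : ℤ} (hn : 1 ≤ n) (hm : 0 ≤ m) {U : Set (ℤ × ℤ)}
    (hl : ∀ y, 0 ≤ y → y < n → (0 - 1, y) ∈ U) :
    {ω | HC 0 m 0 (2 * n) ω} ⊆ Blow n m U ∪ Bup n m U := by
  rintro ξ ⟨y, y', h1, h2, h3, h4, h5⟩
  have hz : (m, y') ∈ Rect 0 m 0 (2 * n) := ⟨hm, le_rfl, h3, h4⟩
  have hu : (0, y) ∈ Rect 0 m 0 (2 * n) := ⟨le_rfl, hm, h1, h2⟩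
  rcases last_contact (U := U) hz h5 with h6 | ⟨v, hv, h6 | h6, h7⟩
  · by_cases h7 : y ≤ n
    · left
      refine ⟨(0, y), hu, ?_, y', h6⟩
      by_cases h8 : y < n
      · exact ⟨0 - 1, y, Or.inl rfl, Or.inr rfl, hl y h1 h8⟩
      · exact ⟨0 - 1, y - 1, Or.inl rfl, Or.inl rfl, hl (y - 1) (by omega) (by omega)⟩
    · right
      refine ⟨(0, y), hu, ?_, y', h6⟩
      exact ⟨0 - 1, 2 * n - y, Or.inl rfl, Or.inr rfl, hl (2 * n - y) (by omega) (by omega)⟩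
  · exact Or.inl ⟨v, hv, h6, y', h7⟩
  · exact Or.inr ⟨v, hv, h6, y', h7⟩

theorem pr_Blow {n m : ℤ} (hn : 1 ≤ n) (hm : 0 ≤ m) {U : Set (ℤ × ℤ)}
    (hl : ∀ y, 0 ≤ y → y < n → (0 - 1, y) ∈ U) :
    hp m (2 * n) / 2 ≤ pr (EW 0 m 0 (2 * n)) (Blow n m U) := by
  have h1 : hp m (2 * n) ≤ _ := (pr_mono (hc_sub_B hn hm hl)).trans (pr_union_le _ _ _)
  have h2 := pr_Bup_le n m U
  linarith

/-- The lemma of Bollobas and Riordan. -/
theorem pr_XR {n m : ℤ} (hn : 1 ≤ n) (hm : n < m) :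
    hp m (2 * n) / 2 * hp n n ≤ pr (EW 0 m 0 (2 * n)) (XR n m) := by
  set W := EW 0 m 0 (2 * n) with hW
  set A : Set (Set Ed) := {ω | ∀ y, 0 ≤ y → y < n → (n, y) ∉ Ux 0 n 0 n ω} with hA
  have hPA : hp n n ≤ pr W A := by
    have h1 : pr W {ω | VC 0 n 0 n ω} = hp n n := by
      rw [pr_vc_window (EW_sub le_rfl hm.le le_rfl (by omega))]
      simp
    rw [← h1]
    refine pr_mono fun ω hω y h2 h3 h4 => ?_
    exact block (by omega) (by omega) hω (hc_of_mem h2 h3 h4)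
  have hES : ∀ e ∈ ES 0 n 0 n, e ∈ W := by
    intro e he
    have h1 := ES_sub he
    rw [hW, mem_EW]
    simp only [mem_Rect] at h1 ⊢
    omega
  let S : Set Ed → Set Ed := fun ω => {e | e ∈ ES 0 n 0 n ∧
    (f1 e ∈ Ux 0 n 0 n ω ∨ f2 e ∈ Ux 0 n 0 n ω)}
  have hS : ∀ ω ⊆ (W : Set Ed), ∀ ω' ⊆ (W : Set Ed),
      (∀ e ∈ S ω, e ∈ W → (e ∈ ω ↔ e ∈ ω')) → S ω' = S ω := by
    intro ω _ ω' _ h
    have h1 : Ux 0 n 0 n ω' = Ux 0 n 0 n ω :=
      Ux_congr fun e he h2 => h e ⟨he, h2⟩ (hES e he)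
    simp only [S, h1]
  have key := pr_mix (W := W) S hS A (fun ω => Blow n m (Ux 0 n 0 n ω)) (XR n m)
    (c := hp m (2 * n) / 2) ?_ ?_
  · refine le_trans ?_ key
    exact mul_le_mul_of_nonneg_left hPA (by have := hp_nonneg m (2 * n); linarith)
  · intro ω _ _
    exact pr_Blow hn (by omega) fun y h1 h2 => Ux_left h1 h2
  · rintro ω hω _ ξ ⟨v, hv, ht, y, hc⟩ _
    obtain ⟨x, x', h1, h2, h3, h4, h5, h6⟩ := br_step hn hm hω hv ht hc
    have hZ : Zs 0 n 0 n (Ux 0 n 0 n ω) ⊆ (ω ∩ S ω) ∪ (ξ \ S ω) := by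
      intro e he
      refine Or.inl ⟨Zs_sub he, he.1, ?_⟩
      have h7 := he.2
      tauto
    have hV : ξ ∩ Av n (Ux 0 n 0 n ω) ⊆ (ω ∩ S ω) ∪ (ξ \ S ω) := by
      rintro e ⟨he1, he2⟩
      refine Or.inr ⟨he1, fun he3 => ?_⟩
      rcases he3.2 with h8 | h8
      · exact he2.1 h8
      · exact he2.2.1 h8
    have hsub : Rect 0 n 0 n ⊆ Rect 0 m 0 (2 * n) := by
      intro w hw
      simp only [mem_Rect] at hw ⊢
      omega
    have hy := hc.mem hv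
    rw [mem_Rect] at hy
    simp only at hy
    refine ⟨x, x', y, h1, h2, h3, h4, hy.2.2.1, hy.2.2.2, ?_, ?_⟩
    · exact (h5.symm.trans h6).mono hZ le_rfl
    · exact (h5.symm.mono hZ hsub).trans (hc.mono hV le_rfl)

/-- The mirror event. -/
def XL (n m : ℤ) : Set (Set Ed) :=
  {ω | ∃ x x' y, 0 ≤ x ∧ x ≤ n ∧ 0 ≤ x' ∧ x' ≤ n ∧ 0 ≤ y ∧ y ≤ 2 * n ∧
    Conn ω (Rect 0 n 0 n) (x, 0) (x', n) ∧ Conn ω (Rect (n - m) n 0 (2 * n)) (x, 0) (n - m, y)}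

theorem XL_upper (n m : ℤ) : IsUpperSet (XL n m) := by
  rintro ω ω' h ⟨x, x', y, h1, h2, h3, h4, h5, h6, h7, h8⟩
  exact ⟨x, x', y, h1, h2, h3, h4, h5, h6, h7.mono h le_rfl, h8.mono h le_rfl⟩

theorem pr_XL {n m : ℤ} :
    pr (EW 0 m 0 (2 * n)) (XR n m) ≤ pr (EW (n - m) n 0 (2 * n)) (XL n m) := by
  refine pr_le_map (rxL n) ?_ ?_
  · intro e he
    rw [mem_EW] at he ⊢
    obtain ⟨x, y, t⟩ := e
    cases t <;> simp [mem_Rect, rxL] at he ⊢ <;> omega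
  · rintro ω ⟨x, x', y, h1, h2, h3, h4, h5, h6, h7, h8⟩
    refine ⟨n - x, n - x', y, by omega, by omega, by omega, by omega, h5, h6, ?_, ?_⟩
    · refine LMap.conn (rxL n) (R := Rect 0 n 0 n) ?_ (h7.mono Set.inter_subset_left le_rfl)
      intro w hw
      simp only [mem_Rect, rxL] at hw ⊢
      omega
    · refine LMap.conn (rxL n) (R := Rect 0 m 0 (2 * n)) ?_ (h8.mono Set.inter_subset_left le_rfl)
      intro w hw
      simp only [mem_Rect, rxL] at hw ⊢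
      omega

theorem XX_hc {n m : ℤ} (hn : 1 ≤ n) (hm : n < m) {ω : Set Ed} (h1 : ω ∈ XR n m)
    (h2 : ω ∈ XL n m) (h3 : HC 0 n 0 n ω) : HC (n - m) m 0 (2 * n) ω := by
  obtain ⟨x, x', y, hx1, hx2, hx3, hx4, hy1, hy2, hc, hR⟩ := h1
  obtain ⟨z, z', t, hz1, hz2, hz3, hz4, ht1, ht2, hc', hL⟩ := h2
  obtain ⟨a, a', ha1, ha2, ha3, ha4, hH⟩ := h3
  obtain ⟨w, hw1, hw2⟩ := hc_vc_meet (by omega) ⟨hx1, hx2⟩ hc ⟨ha1, ha2⟩ (by omega) hH
  obtain ⟨w', hw1', hw2'⟩ := hc_vc_meet (by omega) ⟨hz1, hz2⟩ hc' ⟨ha1, ha2⟩ (by omega) hH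
  have s1 : Rect 0 n 0 n ⊆ Rect (n - m) m 0 (2 * n) := by
    intro v hv; simp only [mem_Rect] at hv ⊢; omega
  have s2 : Rect 0 m 0 (2 * n) ⊆ Rect (n - m) m 0 (2 * n) := by
    intro v hv; simp only [mem_Rect] at hv ⊢; omega
  have s3 : Rect (n - m) n 0 (2 * n) ⊆ Rect (n - m) m 0 (2 * n) := by
    intro v hv; simp only [mem_Rect] at hv ⊢; omega
  refine ⟨t, y, ht1, ht2, hy1, hy2, ?_⟩
  have e1 : Conn ω (Rect (n - m) m 0 (2 * n)) (n - m, t) (z, 0) := hL.symm.mono le_rfl s3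
  have e2 : Conn ω (Rect (n - m) m 0 (2 * n)) (z, 0) (x, 0) :=
    (((hw2'.trans hw1'.symm).trans hw1).trans hw2.symm).mono le_rfl s1
  exact (e1.trans e2).trans (hR.mono le_rfl s2)

theorem hp_three {n : ℤ} (hn : 1 ≤ n) : 1 / 2 ^ 7 ≤ hp (3 * n) (2 * n) := by
  have hs : 1 / 2 ≤ hp n n := hp_square (by omega)
  have hs2 : 1 / 2 ≤ hp (2 * n) (2 * n) := hp_square (by omega)
  have hX : 1 / 2 ^ 3 ≤ pr (EW 0 (2 * n) 0 (2 * n)) (XR n (2 * n)) := by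
    have h1 := pr_XR (m := 2 * n) hn (by omega)
    refine le_trans ?_ h1
    nlinarith
  set W := EW (n - 2 * n) (2 * n) 0 (2 * n) with hW
  have hR : 1 / 2 ^ 3 ≤ pr W (XR n (2 * n)) := by
    have h1 : pr (EW 0 (2 * n) 0 (2 * n)) (XR n (2 * n)) ≤ pr W (XR n (2 * n)) :=
      pr_up (EW_sub (by omega) le_rfl le_rfl le_rfl) (XR_upper _ _)
    exact hX.trans h1
  have hL : 1 / 2 ^ 3 ≤ pr W (XL n (2 * n)) := by
    have h1 : pr (EW (n - 2 * n) n 0 (2 * n)) (XL n (2 * n)) ≤ pr W (XL n (2 * n)) :=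
      pr_up (EW_sub le_rfl (by omega) le_rfl le_rfl) (XL_upper _ _)
    exact (hX.trans pr_XL).trans h1
  have hH : 1 / 2 ≤ pr W {ω | HC 0 n 0 n ω} := by
    rw [pr_hc_window (EW_sub (by omega) (by omega) le_rfl (by omega))]
    simpa using hs
  have h1 := harris_up (W := W) (XR_upper n (2 * n)) (XL_upper n (2 * n))
  have h2 := harris_up (W := W) ((XR_upper n (2 * n)).inter (XL_upper n (2 * n)))
    (HC_mono 0 n 0 n)
  have h3 : pr W (XR n (2 * n) ∩ XL n (2 * n) ∩ {ω | HC 0 n 0 n ω})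
      ≤ pr W {ω | HC (n - 2 * n) (2 * n) 0 (2 * n) ω} :=
    pr_mono fun ω h => XX_hc hn (by omega) h.1.1 h.1.2 h.2
  rw [hW, pr_hc, ← hW] at h3
  have h4 : (2 * n - (n - 2 * n) : ℤ) = 3 * n := by ring
  rw [h4, sub_zero] at h3
  refine le_trans ?_ h3
  refine le_trans ?_ h2
  calc (1 : ℝ) / 2 ^ 7 = (1 / 2 ^ 3 * (1 / 2 ^ 3)) * (1 / 2) := by norm_num
    _ ≤ _ := mul_le_mul ((mul_le_mul hR hL (by norm_num) (pr_nonneg _ _)).trans h1) hH
      (by norm_num) (pr_nonneg _ _)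

/-- Two long crossings and a transversal crossing of the overlap. -/
theorem hp_glue {w₁ w₂ t s : ℤ} (ht : 0 < t) (hs : 0 ≤ s) (h1 : s ≤ w₁) (h2 : s ≤ w₂) :
    hp w₁ t * hp w₂ t * hp t s ≤ hp (w₁ + w₂ - s) t := by
  set W := EW 0 (w₁ + w₂ - s) 0 t with hW
  have e1 : pr W {ω | HC 0 w₁ 0 t ω} = hp w₁ t := by
    rw [pr_hc_window (EW_sub le_rfl (by omega) le_rfl le_rfl)]; simp
  have e2 : pr W {ω | HC (w₁ - s) (w₁ + w₂ - s) 0 t ω} = hp w₂ t := by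
    rw [pr_hc_window (EW_sub (by omega) le_rfl le_rfl le_rfl)]
    congr 1 <;> ring
  have e3 : pr W {ω | VC (w₁ - s) w₁ 0 t ω} = hp t s := by
    rw [pr_vc_window (EW_sub (by omega) (by omega) le_rfl le_rfl)]
    congr 1 <;> ring
  have h3 := harris_up (W := W) (HC_mono 0 w₁ 0 t) (HC_mono (w₁ - s) (w₁ + w₂ - s) 0 t)
  have h4 := harris_up (W := W) ((HC_mono 0 w₁ 0 t).inter (HC_mono (w₁ - s) (w₁ + w₂ - s) 0 t))
    (VC_mono (w₁ - s) w₁ 0 t)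
  rw [e1, e2] at h3
  rw [e3] at h4
  refine le_trans (mul_le_mul_of_nonneg_right h3 (hp_nonneg _ _)) (h4.trans ?_)
  change _ ≤ pr W {ω | HC 0 (w₁ + w₂ - s) 0 t ω}
  refine pr_mono ?_
  rintro ω ⟨⟨hA, hB⟩, hC⟩
  obtain ⟨x, x', hx1, hx2, hx3, hx4, hC⟩ := hC
  -- the crossings of the overlap
  have hA' : ∃ y y', 0 ≤ y ∧ y ≤ t ∧ Conn ω (Rect 0 w₁ 0 t) (0, y) (w₁, y') := by
    obtain ⟨y, y', h5, h6, _, _, h7⟩ := hA
    exact ⟨y, y', h5, h6, h7⟩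
  obtain ⟨y, y', hy1, hy2, hA'⟩ := hA'
  obtain ⟨z, z', hz1, hz2, hz3, hz4, hB'⟩ := hB
  -- the vertical crossing meets both
  have hV1 : Conn ω (Rect 0 w₁ 0 t) (x, 0) (x', t) := hC.mono le_rfl (by
    intro v hv; simp only [mem_Rect] at hv ⊢; omega)
  have hV2 : Conn ω (Rect (w₁ - s) (w₁ + w₂ - s) 0 t) (x, 0) (x', t) := hC.mono le_rfl (by
    intro v hv; simp only [mem_Rect] at hv ⊢; omega)
  obtain ⟨v, hv1, hv2⟩ := hc_vc_meet ht ⟨by omega, by omega⟩ hV1 ⟨hy1, hy2⟩ (by omega) hA'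
  obtain ⟨v', hv1', hv2'⟩ := hc_vc_meet ht ⟨by omega, by omega⟩ hV2 ⟨hz1, hz2⟩ (by omega) hB'
  have s1 : Rect 0 w₁ 0 t ⊆ Rect 0 (w₁ + w₂ - s) 0 t := by
    intro v hv; simp only [mem_Rect] at hv ⊢; omega
  have s2 : Rect (w₁ - s) (w₁ + w₂ - s) 0 t ⊆ Rect 0 (w₁ + w₂ - s) 0 t := by
    intro v hv; simp only [mem_Rect] at hv ⊢; omega
  refine ⟨y, z', hy1, hy2, hz3, hz4, ?_⟩
  have f1 := (hv1.trans hv2.symm).mono (le_refl ω) s1
  have f2 := ((hv2'.trans hv1'.symm).trans hB').mono (le_refl ω) s2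
  exact f1.trans f2

theorem hp_long {n : ℤ} (hn : 1 ≤ n) (k : ℕ) : 1 / 2 ^ (8 * k + 1) ≤ hp ((k + 2) * n) (2 * n) := by
  induction k with
  | zero =>
    simpa using hp_square (n := 2 * n) (by omega)
  | succ k ih =>
    have h1 := hp_glue (w₁ := (k + 2) * n) (w₂ := 3 * n) (t := 2 * n) (s := 2 * n) (by omega)
      (by omega) (by nlinarith) (by omega)
    have h2 := hp_three hn
    have h3 := hp_square (n := 2 * n) (by omega)
    have e1 : ((k + 2) * n + 3 * n - 2 * n : ℤ) = ((k + 1 : ℕ) + 2) * n := by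
      push_cast; ring
    rw [e1] at h1
    refine le_trans ?_ h1
    have e2 : (1 : ℝ) / 2 ^ (8 * (k + 1) + 1) = 1 / 2 ^ (8 * k + 1) * (1 / 2 ^ 7) * (1 / 2) := by
      rw [show 8 * (k + 1) + 1 = (8 * k + 1) + 7 + 1 by ring, pow_add, pow_add]
      field_simp
    rw [e2]
    exact mul_le_mul (mul_le_mul ih h2 (by positivity) (hp_nonneg _ _)) h3 (by positivity)
      (mul_nonneg (hp_nonneg _ _) (hp_nonneg _ _))

/-- The box crossing property: rectangles of width at most `k` times the height `t ≥ 2`. -/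
theorem rsw (k : ℕ) : ∃ c > 0, ∀ w t : ℤ, 0 < w → 2 ≤ t → w ≤ k * t → c ≤ hp w t := by
  refine ⟨1 / 2 ^ (8 * (3 * k) + 1), by positivity, fun w t hw ht hwt => ?_⟩
  have h1 := hp_long (n := t / 2) (by omega) (3 * k)
  refine h1.trans (hp_mono hw ?_ (by omega))
  have h2 : t ≤ 3 * (t / 2) := by omega
  push_cast
  nlinarith [mul_le_mul_of_nonneg_left h2 (Int.natCast_nonneg k)]

end Pool.Agent.MP_6bd702.H23
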